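import Pool.Agent.Helper21.FX.Fix

/-! MP_be0fb5, fixed point theorem inside one Delaunay cell: mixture of the circuits of common separators. -/

set_option autoImplicit false

namespace Pool.Agent.Helper21.FX

open Matrix Filter Topology

/-- the form of a mixture `lam` of the circuits in `C` -/
noncomputable def QC (n : (Fin 3 → ℤ) → (Fin 3 → ℝ)) (C : Finset (Finset (Fin 3 → ℤ))) (ε : ℝ)
    (lam : Finset (Fin 3 → ℤ) → ℝ) (y : Fin 3 → ℝ) : ℝ :=
  ε * (y ⬝ᵥ y) + ∑ T ∈ C, lam T * ∑ z ∈ T, (cm n T z * (n z ⬝ᵥ y)) ^ 2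

/-- in a circuit of separators normalised at `c` the heights sum to one -/
theorem Circ.height {n : (Fin 3 → ℤ) → (Fin 3 → ℝ)} {T : Finset (Fin 3 → ℤ)}
    {μ : (Fin 3 → ℤ) → ℝ} (h : Circ n T μ) (c : Fin 3 → ℝ) (hc : ∀ z, n z ⬝ᵥ (ct z - c) = 1) :
    ∑ z ∈ T, (μ z • n z) ⬝ᵥ ct z = 1 := by
  have h1 : ∀ z, (μ z • n z) ⬝ᵥ ct z = μ z + (μ z • n z) ⬝ᵥ c := by
    intro z
    have h2 := hc z
    rw [dotProduct_sub] at h2
    rw [smul_dotProduct, smul_dotProduct, smul_eq_mul, smul_eq_mul]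
    have h3 : n z ⬝ᵥ ct z = 1 + n z ⬝ᵥ c := by linarith
    rw [h3]
    ring
  have h4 : ∑ z ∈ T, (μ z • n z) ⬝ᵥ c = 0 := by
    have h5 : ∑ z ∈ T, (μ z • n z) ⬝ᵥ c = (∑ z ∈ T, μ z • n z) ⬝ᵥ c := by
      simp only [dotProduct, Finset.sum_apply, Finset.sum_mul]
      exact Finset.sum_comm
    rw [h5, h.bal, zero_dotProduct]
  simp only [h1]
  rw [Finset.sum_add_distrib, h.one, h4, add_zero]

theorem sq_le_dot (x : Fin 3 → ℝ) (i : Fin 3) : x i ^ 2 ≤ x ⬝ᵥ x := by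
  have h1 : x ⬝ᵥ x = ∑ i, x i ^ 2 := by
    unfold dotProduct
    exact Finset.sum_congr rfl (fun i _ => by ring)
  rw [h1]
  exact Finset.single_le_sum (f := fun i => x i ^ 2) (fun i _ => sq_nonneg _) (Finset.mem_univ i)

theorem dot_add_le (a b : Fin 3 → ℝ) : (a + b) ⬝ᵥ (a + b) ≤ 2 * (a ⬝ᵥ a) + 2 * (b ⬝ᵥ b) := by
  have h1 : 0 ≤ (a - b) ⬝ᵥ (a - b) := dot_self_nonneg' _
  have h2 : (a + b) ⬝ᵥ (a + b) + (a - b) ⬝ᵥ (a - b) = 2 * (a ⬝ᵥ a) + 2 * (b ⬝ᵥ b) := by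
    simp only [dotProduct, Fin.sum_univ_three, Pi.add_apply, Pi.sub_apply]
    ring
  linarith

/-- **fixed point theorem inside one Delaunay cell.** For every lattice-free convex body `K`, every interior
point `c` and every `ε > 0` there are separators `n z` of the lattice points (normalised at `c`), a finite set
`D` of lattice points, a finite set `C` of circuits of the separators inside `D` covering `D`, weights `lam`,
and a point `x` such that all points of `D` are nearest lattice points of `x` for the form `QC`. -/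
theorem star3 (K : Set (Fin 3 → ℝ)) (hK : Convex ℝ K) (hKc : IsCompact K) (c : Fin 3 → ℝ)
    (hc : c ∈ interior K) (hfree : ∀ z : Fin 3 → ℤ, ct z ∉ interior K) (ε : ℝ) (hε : 0 < ε) :
    ∃ (n : (Fin 3 → ℤ) → (Fin 3 → ℝ)) (D : Finset (Fin 3 → ℤ)) (C : Finset (Finset (Fin 3 → ℤ)))
      (lam : Finset (Fin 3 → ℤ) → ℝ) (x : Fin 3 → ℝ),
      (∀ z, (∀ y ∈ K, n z ⬝ᵥ y ≤ n z ⬝ᵥ ct z) ∧ n z ⬝ᵥ (ct z - c) = 1) ∧
      (∀ T ∈ C, T ⊆ D ∧ 0 < lam T ∧ Circ n T (cm n T)) ∧ (∑ T ∈ C, lam T = 1) ∧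
      (∀ z ∈ D, ∃ T ∈ C, z ∈ T) ∧
      ∀ z ∈ D, ∀ w : Fin 3 → ℤ, QC n C ε lam (x - ct z) ≤ QC n C ε lam (x - ct w) := by
  classical
  -- inner and outer radius
  obtain ⟨r, hr, hball⟩ : ∃ r : ℝ, 0 < r ∧ ∀ y : Fin 3 → ℝ, (∀ i, |y i - c i| ≤ r) → y ∈ K := by
    rw [mem_interior_iff_mem_nhds, Metric.mem_nhds_iff] at hc
    obtain ⟨r, hr, hb⟩ := hc
    refine ⟨r / 2, by linarith, fun y hy => hb ?_⟩
    rw [Metric.mem_ball, dist_eq_norm]
    have h1 : ‖y - c‖ ≤ r / 2 := by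
      rw [pi_norm_le_iff_of_nonneg (by linarith)]
      intro i
      rw [Pi.sub_apply, Real.norm_eq_abs]
      exact hy i
    linarith
  obtain ⟨RK, hRK0, hRK⟩ : ∃ RK : ℝ, 0 < RK ∧ ∀ y ∈ K, (y - c) ⬝ᵥ (y - c) ≤ RK := by
    have hcont : Continuous fun y : Fin 3 → ℝ => (y - c) ⬝ᵥ (y - c) := by
      unfold dotProduct
      exact continuous_finsetSum _ (fun i _ =>
        ((continuous_apply i).sub continuous_const).mul ((continuous_apply i).sub continuous_const))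
    obtain ⟨R, hR⟩ := hKc.bddAbove_image hcont.continuousOn
    refine ⟨|R| + 1, by positivity, fun y hy => ?_⟩
    have h1 := hR ⟨y, hy, rfl⟩
    have h2 := le_abs_self R
    dsimp only at h1
    linarith
  obtain ⟨n, hn⟩ := normals K hK c r hr hball RK hRK hRK0 hfree
  set C0 : ℝ := 3 / r ^ 2 with hC0
  have hC0' : 0 ≤ C0 := by positivity
  have hnC : ∀ z, n z ⬝ᵥ n z ≤ C0 := fun z => (hn z).2.2.1
  set R1 : ℝ := (3 * (ε + C0) + 1) / ε with hR1
  have hεR1 : ε * R1 = 3 * (ε + C0) + 1 := by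
    rw [hR1]
    field_simp
  have hR10 : 0 < R1 := by positivity
  set TT : ℝ := 2 * R1 + 2 * (c ⬝ᵥ c) with hTT
  have hTT0 : 0 < TT := by
    have := dot_self_nonneg' c
    linarith
  obtain ⟨M, hM⟩ := exists_nat_ge (4 * TT + 2 * RK + 4)
  have hM1 : (1 : ℝ) ≤ (M : ℝ) := by linarith
  have hMsq : 4 * TT + 2 * RK + 4 ≤ (M : ℝ) ^ 2 := by nlinarith
  set sN : ℝ := 3 * (ε + C0) / ε with hsN
  have hsN0 : 0 ≤ sN := by positivity
  obtain ⟨N, hN⟩ := exists_nat_ge ((M : ℝ) + sN + 1)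
  set B : Finset (Fin 3 → ℤ) := Finset.Icc (fun _ => -(N : ℤ)) (fun _ => (N : ℤ)) with hB
  have hmem : ∀ v, v ∈ B ↔ ∀ i, -(N : ℤ) ≤ v i ∧ v i ≤ N := by
    intro v
    rw [hB, Finset.mem_Icc, Pi.le_def, Pi.le_def]
    exact ⟨fun h i => ⟨h.1 i, h.2 i⟩, fun h => ⟨fun i => (h i).1, fun i => (h i).2⟩⟩
  have hMN : (M : ℤ) ≤ N := by
    have : (M : ℝ) ≤ N := by linarith
    exact_mod_cast this
  have hBfl : ∀ x : Fin 3 → ℝ, (∀ i, |x i| ≤ (M : ℝ)) → (fun i => ⌊x i⌋) ∈ B := by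
    intro x hx
    rw [hmem]
    intro i
    have a1 := abs_le.1 (hx i)
    constructor
    · rw [Int.le_floor]
      have h1 : ((-(N : ℤ) : ℤ) : ℝ) ≤ -(M : ℝ) := by
        push_cast
        linarith
      linarith
    · have h3 : ((⌊x i⌋ : ℤ) : ℝ) ≤ ((M : ℤ) : ℝ) := by
        push_cast
        exact (Int.floor_le _).trans a1.2
      have h4 : ⌊x i⌋ ≤ (M : ℤ) := by exact_mod_cast h3
      omega
  have hout : ∀ x : Fin 3 → ℝ, (∀ i, |x i| ≤ (M : ℝ)) → (∃ i, |x i| = (M : ℝ)) →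
      ∀ z : Fin 3 → ℤ, (x - ct z) ⬝ᵥ (x - ct z) ≤ R1 → 0 < n z ⬝ᵥ x := by
    intro x _ ⟨i, hi⟩ z hz
    set a : Fin 3 → ℝ := ct z - c with ha
    set t : Fin 3 → ℝ := (x - ct z) + c with ht
    have hxat : x = a + t := by
      rw [ha, ht]
      abel
    have h1 : t ⬝ᵥ t ≤ TT := by
      have := dot_add_le (x - ct z) c
      rw [← ht] at this
      linarith
    have h2 : (M : ℝ) ^ 2 ≤ x ⬝ᵥ x := by
      have := sq_le_dot x i
      rw [← hi, sq_abs]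
      exact this
    have h3 : x ⬝ᵥ x ≤ 2 * (a ⬝ᵥ a) + 2 * (t ⬝ᵥ t) := by
      rw [hxat]
      exact dot_add_le a t
    have h4 : TT + RK + 2 ≤ a ⬝ᵥ a := by linarith
    have h5 := (hn z).2.2.2 (by rw [← ha]; linarith)
    rw [h5, ← ha, smul_dotProduct, smul_eq_mul]
    have h6 : 0 < a ⬝ᵥ a := by linarith
    refine mul_pos (inv_pos.2 h6) ?_
    rw [hxat, dotProduct_add]
    have h7 := dot_sq_le a t
    have h8 : (a ⬝ᵥ t) ^ 2 < (a ⬝ᵥ a) ^ 2 := by nlinarith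
    have h9 := abs_lt_of_sq_lt_sq h8 h6.le
    linarith [neg_abs_le (a ⬝ᵥ t)]
  -- the approximate fixed points
  have hex : ∀ k : ℕ, ∃ p : (Fin 3 → ℝ) × (Finset (Fin 3 → ℤ) → ℝ), (∀ i, |p.1 i| ≤ (M : ℝ)) ∧
      (∀ T, 0 ≤ p.2 T ∧ p.2 T ≤ 1) ∧ (∑ T ∈ CC n B, p.2 T = 1) ∧
      (∀ i, ∑ z ∈ B, (∑ T ∈ CC n B, p.2 T * cm n T z) * n z i = 0) ∧
      (∀ z ∈ B, ∑ T ∈ CC n B, p.2 T * cm n T z ≠ 0 → ∀ w ∈ B,
        QQ n B ε p.2 (p.1 - ct z) ≤ QQ n B ε p.2 (p.1 - ct w) + 1 / ((k : ℝ) + 1)) := by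
    intro k
    have hk : 0 < 1 / ((k : ℝ) + 1) := Nat.one_div_pos_of_nat
    have hk1 : 1 / ((k : ℝ) + 1) ≤ 1 := by
      rw [div_le_one (by positivity)]
      have : (0 : ℝ) ≤ k := Nat.cast_nonneg k
      linarith
    obtain ⟨x, lam, h1, h2, h3, h4, h5⟩ := fix_delta n B ε (1 / ((k : ℝ) + 1)) C0 M R1 hε hk
      (by linarith) hnC (by rw [hεR1]; linarith) hBfl hout
    exact ⟨(x, lam), h1, h2, h3, h4, h5⟩
  choose u hu using hex
  -- compactness
  have hcomp : IsCompact ((Set.pi Set.univ fun _ : Fin 3 => Set.Icc (-(M : ℝ)) M) ×ˢ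
      (Set.pi Set.univ fun _ : Finset (Fin 3 → ℤ) => Set.Icc (0 : ℝ) 1)) :=
    (isCompact_univ_pi (fun _ => isCompact_Icc)).prod (isCompact_univ_pi (fun _ => isCompact_Icc))
  obtain ⟨p, hp, φ, hφ, hlim⟩ := hcomp.tendsto_subseq (x := u) (by
    intro k
    refine ⟨fun i _ => ?_, fun T _ => (hu k).2.1 T⟩
    exact abs_le.1 ((hu k).1 i))
  have hpM : ∀ i, |p.1 i| ≤ (M : ℝ) := fun i => abs_le.2 (hp.1 i (Set.mem_univ _))
  have hp01 : ∀ T, 0 ≤ p.2 T ∧ p.2 T ≤ 1 := fun T => hp.2 T (Set.mem_univ _)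
  -- continuous functions of the pair
  have clam : ∀ T, Continuous fun q : (Fin 3 → ℝ) × (Finset (Fin 3 → ℤ) → ℝ) => q.2 T := fun T =>
    (continuous_apply T).comp continuous_snd
  have cmu : ∀ z, Continuous fun q : (Fin 3 → ℝ) × (Finset (Fin 3 → ℤ) → ℝ) =>
      ∑ T ∈ CC n B, q.2 T * cm n T z := fun z =>
    continuous_finsetSum _ (fun T _ => (clam T).mul continuous_const)
  have cQ : ∀ z : Fin 3 → ℤ, Continuous fun q : (Fin 3 → ℝ) × (Finset (Fin 3 → ℤ) → ℝ) =>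
      QQ n B ε q.2 (q.1 - ct z) := by
    intro z
    unfold QQ
    have cd : ∀ i, Continuous fun q : (Fin 3 → ℝ) × (Finset (Fin 3 → ℤ) → ℝ) =>
        (q.1 - ct z) i := fun i => ((continuous_apply i).comp continuous_fst).sub continuous_const
    have c1 : Continuous fun q : (Fin 3 → ℝ) × (Finset (Fin 3 → ℤ) → ℝ) =>
        (q.1 - ct z) ⬝ᵥ (q.1 - ct z) := by
      unfold dotProduct
      exact continuous_finsetSum _ (fun i _ => (cd i).mul (cd i))
    have c2 : ∀ v : Fin 3 → ℝ, Continuous fun q : (Fin 3 → ℝ) × (Finset (Fin 3 → ℤ) → ℝ) =>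
        v ⬝ᵥ (q.1 - ct z) := by
      intro v
      unfold dotProduct
      exact continuous_finsetSum _ (fun i _ => continuous_const.mul (cd i))
    refine (continuous_const.mul c1).add (continuous_finsetSum _ (fun T _ => ?_))
    exact (clam T).mul (continuous_finsetSum _ (fun z _ => (continuous_const.mul (c2 _)).pow 2))
  have hlimf : ∀ F : (Fin 3 → ℝ) × (Finset (Fin 3 → ℤ) → ℝ) → ℝ, Continuous F →
      Tendsto (fun k => F (u (φ k))) atTop (𝓝 (F p)) := fun F hF => (hF.tendsto p).comp hlim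
  have hlam1 : ∑ T ∈ CC n B, p.2 T = 1 := by
    have h1 := hlimf (fun q => ∑ T ∈ CC n B, q.2 T) (continuous_finsetSum _ (fun T _ => clam T))
    have h2 : Tendsto (fun k => ∑ T ∈ CC n B, (u (φ k)).2 T) atTop (𝓝 1) := by
      refine tendsto_const_nhds.congr (fun k => ?_)
      exact ((hu (φ k)).2.2.1).symm
    exact tendsto_nhds_unique h1 h2
  have hδ0 : Tendsto (fun k => 1 / (((φ k : ℕ) : ℝ) + 1)) atTop (𝓝 0) :=
    tendsto_one_div_add_atTop_nhds_zero_nat.comp hφ.tendsto_atTop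
  have hDB : ∀ z ∈ B, ∑ T ∈ CC n B, p.2 T * cm n T z ≠ 0 → ∀ w ∈ B,
      QQ n B ε p.2 (p.1 - ct z) ≤ QQ n B ε p.2 (p.1 - ct w) := by
    intro z hz hne w hw
    have h1 := hlimf _ (cmu z)
    have h2 : ∀ᶠ k in atTop, ∑ T ∈ CC n B, (u (φ k)).2 T * cm n T z ≠ 0 := h1.eventually_ne hne
    have h3 := hlimf _ (cQ z)
    have h4 := (hlimf _ (cQ w)).add hδ0
    rw [add_zero] at h4
    refine le_of_tendsto_of_tendsto h3 h4 (h2.mono (fun k hk => ?_))
    exact (hu (φ k)).2.2.2.2 z hz hk w hw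
  -- all lattice points
  have hp0 : ∀ T ∈ CC n B, 0 ≤ p.2 T := fun T _ => (hp01 T).1
  have hAll : ∀ z ∈ B, ∑ T ∈ CC n B, p.2 T * cm n T z ≠ 0 → ∀ w : Fin 3 → ℤ,
      QQ n B ε p.2 (p.1 - ct z) ≤ QQ n B ε p.2 (p.1 - ct w) := by
    intro z hz hne w
    by_cases hw : w ∈ B
    · exact hDB z hz hne w hw
    · have h1 := hDB z hz hne _ (hBfl p.1 hpM)
      have h3 := QQ_upper n B ε C0 hnC p.2 hp0 hlam1.le (p.1 - ct (fun i => ⌊p.1 i⌋))
      have h4 : (p.1 - ct (fun i => ⌊p.1 i⌋)) ⬝ᵥ (p.1 - ct (fun i => ⌊p.1 i⌋)) ≤ 3 := by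
        have h5 : ∀ i, ((p.1 - ct (fun i => ⌊p.1 i⌋)) i) ^ 2 ≤ 1 := by
          intro i
          have h6 : (p.1 - ct (fun i => ⌊p.1 i⌋)) i = Int.fract (p.1 i) := rfl
          rw [h6]
          have := Int.fract_nonneg (p.1 i)
          have := (Int.fract_lt_one (p.1 i)).le
          nlinarith
        have h7 : (p.1 - ct (fun i => ⌊p.1 i⌋)) ⬝ᵥ (p.1 - ct (fun i => ⌊p.1 i⌋)) =
            ∑ i, ((p.1 - ct (fun i => ⌊p.1 i⌋)) i) ^ 2 := by
          unfold dotProduct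
          exact Finset.sum_congr rfl (fun i _ => by ring)
        rw [h7, Fin.sum_univ_three]
        have := h5 0
        have := h5 1
        have := h5 2
        linarith
      have h5 : (ε + C0) * ((p.1 - ct (fun i => ⌊p.1 i⌋)) ⬝ᵥ (p.1 - ct (fun i => ⌊p.1 i⌋))) ≤
          (ε + C0) * 3 := mul_le_mul_of_nonneg_left h4 (by linarith)
      have h6 := QQ_lower n B ε p.2 hp0 (p.1 - ct w)
      have h7 : ∃ i, (N : ℤ) < |w i| := by
        by_contra hcon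
        push Not at hcon
        apply hw
        rw [hmem]
        intro i
        exact abs_le.1 (hcon i)
      obtain ⟨i, hi⟩ := h7
      have h8 : (N : ℝ) < |(w i : ℝ)| := by exact_mod_cast hi
      have h9 : sN + 1 ≤ |(p.1 - ct w) i| := by
        have e1 : |(w i : ℝ)| ≤ |p.1 i| + |(p.1 - ct w) i| := by
          have e2 : (w i : ℝ) = p.1 i - (p.1 - ct w) i := by
            show (w i : ℝ) = p.1 i - (p.1 i - (w i : ℝ))
            ring
          rw [e2]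
          exact abs_sub _ _
        have := hpM i
        linarith
      have h10 : sN ≤ ((p.1 - ct w) i) ^ 2 := by
        rw [← sq_abs]
        nlinarith
      have h11 := sq_le_dot (p.1 - ct w) i
      have h12 : 3 * (ε + C0) ≤ ε * ((p.1 - ct w) ⬝ᵥ (p.1 - ct w)) := by
        have h13 : ε * sN = 3 * (ε + C0) := by
          rw [hsN]
          field_simp
        rw [← h13]
        exact mul_le_mul_of_nonneg_left (h10.trans h11) hε.le
      linarith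
  -- output
  have hcmB : ∀ T ∈ CC n B, Circ n T (cm n T) ∧ T ⊆ B := fun T hT =>
    ⟨cm_spec ((mem_CC n B T).1 hT).2, ((mem_CC n B T).1 hT).1⟩
  set C : Finset (Finset (Fin 3 → ℤ)) := (CC n B).filter (fun T => p.2 T ≠ 0) with hC
  set D : Finset (Fin 3 → ℤ) := B.filter (fun z => ∑ T ∈ CC n B, p.2 T * cm n T z ≠ 0) with hD
  have hCpos : ∀ T ∈ C, 0 < p.2 T := fun T hT =>
    lt_of_le_of_ne (hp01 T).1 (Ne.symm (Finset.mem_filter.1 hT).2)
  have hmupos : ∀ T ∈ C, ∀ z ∈ T, ∑ T ∈ CC n B, p.2 T * cm n T z ≠ 0 := by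
    intro T hT z hz
    have hT' := (Finset.mem_filter.1 hT).1
    have h1 : 0 < p.2 T * cm n T z := mul_pos (hCpos T hT) ((hcmB T hT').1.pos z hz)
    have h2 : p.2 T * cm n T z ≤ ∑ T ∈ CC n B, p.2 T * cm n T z :=
      Finset.single_le_sum (f := fun T => p.2 T * cm n T z)
        (fun T hT => mul_nonneg (hp01 T).1 ((hcmB T hT).1.nonneg z)) hT'
    exact (lt_of_lt_of_le h1 h2).ne'
  have hQ : ∀ y, QC n C ε p.2 y = QQ n B ε p.2 y := by
    intro y
    unfold QC QQ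
    congr 1
    rw [hC, Finset.sum_filter]
    refine Finset.sum_congr rfl (fun T hT => ?_)
    by_cases h0 : p.2 T = 0
    · rw [if_neg (by rw [h0]; simp), h0, zero_mul]
    · rw [if_pos h0]
      congr 1
      refine Finset.sum_subset (hcmB T hT).2 (fun z _ hz => ?_)
      rw [(hcmB T hT).1.zero z hz]
      ring
  refine ⟨n, D, C, p.2, p.1, fun z => ⟨(hn z).1, (hn z).2.1⟩, ?_, ?_, ?_, ?_⟩
  · intro T hT
    have hT' := (Finset.mem_filter.1 hT).1
    refine ⟨fun z hz => Finset.mem_filter.2 ⟨(hcmB T hT').2 hz, hmupos T hT z hz⟩, hCpos T hT,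
      (hcmB T hT').1⟩
  · rw [hC, Finset.sum_filter_ne_zero]
    exact hlam1
  · intro z hz
    have h1 := (Finset.mem_filter.1 hz).2
    obtain ⟨T, hT, hTne⟩ := Finset.exists_ne_zero_of_sum_ne_zero h1
    refine ⟨T, Finset.mem_filter.2 ⟨hT, left_ne_zero_of_mul hTne⟩, ?_⟩
    by_contra hzT
    exact right_ne_zero_of_mul hTne ((hcmB T hT).1.zero z hzT)
  · intro z hz w
    rw [hQ, hQ]
    exact hAll z (Finset.mem_filter.1 hz).1 (Finset.mem_filter.1 hz).2 w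

end Pool.Agent.Helper21.FX
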