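import Pool.Agent.Helper21.FX.Tied
import Pool.Agent.Helper1.FX.Equil

/-!
# MP_be0fb5, full answer: averaging over the tied superbases

`avg`: at an equilibrium `Q = ε + ∑ y_f gram (V f)` in which all superbases `f` are minimal for `Q`, one `f` satisfies
`∑ (6 + e_s) p_s ≤ 6 P*` for the conorms `p` of its own form `gram (V f)`, with an excess vector `e` of the list `LL`
supported on the vanishing conorms of `Q`.
-/

set_option autoImplicit false

namespace Pool.Agent.Helper21.FX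

open Matrix Pool.Agent.Helper12.LW
open Pool.Agent.Helper84.FL (Superbase)
open Pool.Agent.Helper73.FX (sp nn)
open Pool.Agent.Helper1.FX (gram)

/-- lookup in six booleans -/
def b6 (b01 b02 b03 b12 b13 b23 : Bool) (l m : Fin 4) : Bool :=
  (![![false, b01, b02, b03], ![b01, false, b12, b13], ![b02, b12, false, b23], ![b03, b13, b23, false]] :
    Fin 4 → Fin 4 → Bool) l m

theorem pattern_bool : ∀ b01 b02 b03 b12 b13 b23 : Bool,
    (b01 || b02 || b03) = true → (b01 || b12 || b13) = true → (b02 || b12 || b23) = true →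
    (b03 || b13 || b23) = true → (b02 || b03 || b12 || b13) = true → (b01 || b03 || b12 || b23) = true →
    (b01 || b02 || b13 || b23) = true →
    ∃ (τ : Equiv.Perm (Fin 4)) (k : Fin 6), ∀ s : Fin 6,
      (NF k s = 0 ↔ b6 b01 b02 b03 b12 b13 b23 (τ (qa s)) (τ (qb s)) = true) := by
  decide +kernel

theorem qab_ne : ∀ s : Fin 6, qa s ≠ qb s := by decide

/-- the seven cut sums of a positive definite form are positive -/
theorem cut_pos {Q : Matrix (Fin 3) (Fin 3) ℝ} (hQ : Q.PosDef) {f : Fin 4 → Fin 3 → ℤ}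
    (hf : Superbase f) (A : Fin 4 → ℤ) (hA : ∃ i j, A i ≠ A j) :
    0 < ∑ s, sp Q f (qa s) (qb s) * ((A (qa s) : ℝ) - A (qb s)) ^ 2 := by
  have hs := Pool.Agent.Helper73.FX.psd_symm hQ.posSemidef
  have hne : toR (∑ l, A l • f l) ≠ 0 := by
    intro h
    have h0 : ∑ l, A l • f l = 0 := by
      funext a
      have h1 := congrFun h a
      simp only [toR, Pi.zero_apply, Int.cast_eq_zero] at h1
      exact h1
    obtain ⟨i, j, hij⟩ := hA
    exact hij (Pool.Agent.Helper73.FX.rel hf A h0 i j)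
  have h1 := Pool.Agent.Helper73.FX.qf_pos hQ hne
  rw [Pool.Agent.Helper73.FX.selling_qf hs hf.sum] at h1
  have h := fun l m => Pool.Agent.Helper73.FX.sp_comm hs f l m
  have h2 : (∑ l, ∑ m, sp Q f l m * ((A l : ℝ) - A m) ^ 2) / 2 =
      ∑ s, sp Q f (qa s) (qb s) * ((A (qa s) : ℝ) - A (qb s)) ^ 2 := by
    simp only [Fin.sum_univ_four, Fin.sum_univ_six, qa, qb, Matrix.cons_val_zero, Matrix.cons_val_one,
      Matrix.cons_val]
    rw [h 1 0, h 2 0, h 3 0, h 2 1, h 3 1, h 3 2]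
    ring
  rw [h2] at h1
  exact h1

/-- **zero pattern**: after a permutation the vanishing conorms of a minimal superbase are the support of a
normal form. -/
theorem pattern {Q : Matrix (Fin 3) (Fin 3) ℝ} (hQ : Q.PosDef) {f : Fin 4 → Fin 3 → ℤ}
    (hf : Superbase f) (hmin : ∀ g, Superbase g → Pool.Agent.Helper73.FX.PP Q f ≤ Pool.Agent.Helper73.FX.PP Q g) :
    ∃ (τ : Equiv.Perm (Fin 4)) (k : Fin 6), ∀ s : Fin 6,
      (NF k s = 0 → 0 < sp Q (fun i => f (τ i)) (qa s) (qb s)) ∧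
      (NF k s ≠ 0 → sp Q (fun i => f (τ i)) (qa s) (qb s) = 0) := by
  classical
  have hs := Pool.Agent.Helper73.FX.psd_symm hQ.posSemidef
  have h0 : ∀ l m : Fin 4, l ≠ m → 0 ≤ sp Q f l m := fun l m hlm =>
    Pool.Agent.Helper73.FX.sp_nonneg_of_min hs hf hmin hlm
  have hcut := cut_pos hQ hf
  set b : Fin 4 → Fin 4 → Bool := fun l m => decide (0 < sp Q f l m) with hb
  have hbf : ∀ l m, l ≠ m → b l m = false → sp Q f l m = 0 := by
    intro l m hlm h
    rw [hb] at h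
    simp only [decide_eq_false_iff_not, not_lt] at h
    exact le_antisymm h (h0 l m hlm)
  have hbt : ∀ l m, b l m = true → 0 < sp Q f l m := by
    intro l m h
    rw [hb] at h
    simpa using h
  have hbs : ∀ l m, b l m = b m l := by
    intro l m
    simp only [hb, Pool.Agent.Helper73.FX.sp_comm hs f l m]
  have key : ∀ A : Fin 4 → ℤ, (∃ i j, A i ≠ A j) →
      (∀ s, A (qa s) ≠ A (qb s) → b (qa s) (qb s) = false) → False := by
    intro A hA hz
    have h1 := hcut A hA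
    have h2 : ∑ s, sp Q f (qa s) (qb s) * ((A (qa s) : ℝ) - A (qb s)) ^ 2 = 0 := by
      refine Finset.sum_eq_zero fun s _ => ?_
      by_cases h : A (qa s) = A (qb s)
      · rw [h, sub_self]
        ring
      · rw [hbf _ _ (qab_ne s) (hz s h), zero_mul]
    rw [h2] at h1
    exact lt_irrefl _ h1
  have c1 : (b 0 1 || b 0 2 || b 0 3) = true := by
    rw [← Bool.not_eq_false]
    intro hc
    simp only [Bool.or_eq_false_iff] at hc
    obtain ⟨⟨h1, h2⟩, h3⟩ := hc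
    refine key ![1, 0, 0, 0] ⟨0, 1, by decide⟩ fun s hs => ?_
    fin_cases s
    exacts [h1, h2, h3, absurd rfl hs, absurd rfl hs, absurd rfl hs]
  have c2 : (b 0 1 || b 1 2 || b 1 3) = true := by
    rw [← Bool.not_eq_false]
    intro hc
    simp only [Bool.or_eq_false_iff] at hc
    obtain ⟨⟨h1, h2⟩, h3⟩ := hc
    refine key ![0, 1, 0, 0] ⟨0, 1, by decide⟩ fun s hs => ?_
    fin_cases s
    exacts [h1, absurd rfl hs, absurd rfl hs, h2, h3, absurd rfl hs]
  have c3 : (b 0 2 || b 1 2 || b 2 3) = true := by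
    rw [← Bool.not_eq_false]
    intro hc
    simp only [Bool.or_eq_false_iff] at hc
    obtain ⟨⟨h1, h2⟩, h3⟩ := hc
    refine key ![0, 0, 1, 0] ⟨0, 2, by decide⟩ fun s hs => ?_
    fin_cases s
    exacts [absurd rfl hs, h1, absurd rfl hs, h2, absurd rfl hs, h3]
  have c4 : (b 0 3 || b 1 3 || b 2 3) = true := by
    rw [← Bool.not_eq_false]
    intro hc
    simp only [Bool.or_eq_false_iff] at hc
    obtain ⟨⟨h1, h2⟩, h3⟩ := hc
    refine key ![0, 0, 0, 1] ⟨0, 3, by decide⟩ fun s hs => ?_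
    fin_cases s
    exacts [absurd rfl hs, absurd rfl hs, h1, absurd rfl hs, h2, h3]
  have c5 : (b 0 2 || b 0 3 || b 1 2 || b 1 3) = true := by
    rw [← Bool.not_eq_false]
    intro hc
    simp only [Bool.or_eq_false_iff] at hc
    obtain ⟨⟨⟨h1, h2⟩, h3⟩, h4⟩ := hc
    refine key ![1, 1, 0, 0] ⟨0, 2, by decide⟩ fun s hs => ?_
    fin_cases s
    exacts [absurd rfl hs, h1, h2, h3, h4, absurd rfl hs]
  have c6 : (b 0 1 || b 0 3 || b 1 2 || b 2 3) = true := by
    rw [← Bool.not_eq_false]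
    intro hc
    simp only [Bool.or_eq_false_iff] at hc
    obtain ⟨⟨⟨h1, h2⟩, h3⟩, h4⟩ := hc
    refine key ![1, 0, 1, 0] ⟨0, 1, by decide⟩ fun s hs => ?_
    fin_cases s
    exacts [h1, absurd rfl hs, h2, h3, absurd rfl hs, h4]
  have c7 : (b 0 1 || b 0 2 || b 1 3 || b 2 3) = true := by
    rw [← Bool.not_eq_false]
    intro hc
    simp only [Bool.or_eq_false_iff] at hc
    obtain ⟨⟨⟨h1, h2⟩, h3⟩, h4⟩ := hc
    refine key ![1, 0, 0, 1] ⟨0, 1, by decide⟩ fun s hs => ?_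
    fin_cases s
    exacts [h1, h2, absurd rfl hs, absurd rfl hs, h3, h4]
  obtain ⟨τ, k, hτ⟩ := pattern_bool (b 0 1) (b 0 2) (b 0 3) (b 1 2) (b 1 3) (b 2 3) c1 c2 c3 c4 c5 c6 c7
  have hb6 : ∀ l m, l ≠ m → b6 (b 0 1) (b 0 2) (b 0 3) (b 1 2) (b 1 3) (b 2 3) l m = b l m := by
    intro l m hlm
    fin_cases l <;> fin_cases m <;> first | exact absurd rfl hlm | rfl | exact hbs _ _
  refine ⟨τ, k, fun s => ?_⟩
  have hne : τ (qa s) ≠ τ (qb s) := by
    exact fun h => qab_ne s (τ.injective h)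
  have h1 := hτ s
  rw [hb6 _ _ hne] at h1
  constructor
  · intro h
    exact hbt _ _ (h1.1 h)
  · intro h
    refine hbf _ _ hne ?_
    by_contra h2
    exact h (h1.2 (by simpa using h2))

theorem cut_nonneg {G : Matrix (Fin 3) (Fin 3) ℝ} (hG : G.PosSemidef) {f : Fin 4 → Fin 3 → ℤ}
    (hf : ∑ l, f l = 0) (A : Fin 4 → ℤ) :
    0 ≤ ∑ s, sp G f (qa s) (qb s) * ((A (qa s) : ℝ) - A (qb s)) ^ 2 := by
  have hs := Pool.Agent.Helper73.FX.psd_symm hG
  have h1 := Pool.Agent.Helper73.FX.qf_nonneg hG (toR (∑ l, A l • f l))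
  rw [Pool.Agent.Helper73.FX.selling_qf hs hf] at h1
  have h := fun l m => Pool.Agent.Helper73.FX.sp_comm hs f l m
  have h2 : (∑ l, ∑ m, sp G f l m * ((A l : ℝ) - A m) ^ 2) / 2 =
      ∑ s, sp G f (qa s) (qb s) * ((A (qa s) : ℝ) - A (qb s)) ^ 2 := by
    simp only [Fin.sum_univ_four, Fin.sum_univ_six, qa, qb, Matrix.cons_val_zero, Matrix.cons_val_one,
      Matrix.cons_val]
    rw [h 1 0, h 2 0, h 3 0, h 2 1, h 3 1, h 3 2]
    ring
  rw [h2] at h1
  exact h1

/-- the averages are nonnegative on nonnegative forms -/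
theorem Ph_nonneg {G : Matrix (Fin 3) (Fin 3) ℝ} (hG : G.PosSemidef) {f : Fin 4 → Fin 3 → ℤ}
    (hf : ∑ l, f l = 0) (k : Fin 6) : 0 ≤ Ph (nl k) (sp G f) := by
  have c0 := cut_nonneg hG hf ![1, 0, 0, 0]
  have c1 := cut_nonneg hG hf ![0, 1, 0, 0]
  have c2 := cut_nonneg hG hf ![0, 0, 1, 0]
  have c3 := cut_nonneg hG hf ![0, 0, 0, 1]
  have c01 := cut_nonneg hG hf ![1, 1, 0, 0]
  have c02 := cut_nonneg hG hf ![1, 0, 1, 0]
  have c03 := cut_nonneg hG hf ![1, 0, 0, 1]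
  simp only [Fin.sum_univ_six, qa, qb, Matrix.cons_val_zero, Matrix.cons_val_one,
    Matrix.cons_val, Int.cast_one, Int.cast_zero] at c0 c1 c2 c3 c01 c02 c03
  fin_cases k <;> simp [Ph, nl, NF] <;> linarith

theorem sp_add (A B : Matrix (Fin 3) (Fin 3) ℝ) (f : Fin 4 → Fin 3 → ℤ) (l m : Fin 4) :
    sp (A + B) f l m = sp A f l m + sp B f l m := by
  unfold sp
  rw [add_mulVec, dotProduct_add]
  ring

theorem sp_smul (c : ℝ) (A : Matrix (Fin 3) (Fin 3) ℝ) (f : Fin 4 → Fin 3 → ℤ) (l m : Fin 4) :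
    sp (c • A) f l m = c * sp A f l m := by
  unfold sp
  rw [smul_mulVec, dotProduct_smul, smul_eq_mul]
  ring

theorem Ph_add (e : List ℤ) (p q : Fin 4 → Fin 4 → ℝ) :
    Ph e (fun l m => p l m + q l m) = Ph e p + Ph e q := by
  unfold Ph
  split
  · ring
  · simp

theorem Ph_smul (e : List ℤ) (c : ℝ) (p : Fin 4 → Fin 4 → ℝ) : Ph e (fun l m => c * p l m) = c * Ph e p := by
  unfold Ph
  split
  · ring
  · simp

theorem Ph_sp_add (e : List ℤ) (A B : Matrix (Fin 3) (Fin 3) ℝ) (f : Fin 4 → Fin 3 → ℤ) :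
    Ph e (sp (A + B) f) = Ph e (sp A f) + Ph e (sp B f) := by
  rw [← Ph_add]
  congr 1
  funext l m
  exact sp_add A B f l m

theorem Ph_sp_smul (e : List ℤ) (c : ℝ) (A : Matrix (Fin 3) (Fin 3) ℝ) (f : Fin 4 → Fin 3 → ℤ) :
    Ph e (sp (c • A) f) = c * Ph e (sp A f) := by
  rw [← Ph_smul]
  congr 1
  funext l m
  exact sp_smul c A f l m

theorem Ph_sp_zero (e : List ℤ) (f : Fin 4 → Fin 3 → ℤ) : Ph e (sp 0 f) = 0 := by
  have h := Ph_sp_smul e 0 0 f
  simpa using h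

theorem Ph_sp_sum {ι : Type*} (s : Finset ι) (e : List ℤ) (A : ι → Matrix (Fin 3) (Fin 3) ℝ)
    (f : Fin 4 → Fin 3 → ℤ) : Ph e (sp (∑ i ∈ s, A i) f) = ∑ i ∈ s, Ph e (sp (A i) f) := by
  classical
  induction s using Finset.induction_on with
  | empty => simp [Ph_sp_zero]
  | insert i s hi ih => rw [Finset.sum_insert hi, Finset.sum_insert hi, Ph_sp_add, ih]

/-- the value on a form whose conorms vanish on the support of the excess vector -/
theorem Ph_nl_eq {G : Matrix (Fin 3) (Fin 3) ℝ} (hG : G.IsSymm) {f : Fin 4 → Fin 3 → ℤ}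
    (hf : ∑ l, f l = 0) (k : Fin 6) (h : ∀ s, NF k s ≠ 0 → sp G f (qa s) (qb s) = 0) :
    Ph (nl k) (sp G f) = 6 * Pool.Agent.Helper73.FX.PP G f := by
  rw [Pool.Agent.Helper73.FX.PP_self hG hf]
  have h' : ∀ s, (NF k s : ℝ) * sp G f (qa s) (qb s) = 0 := by
    intro s
    by_cases h0 : NF k s = 0
    · rw [h0]
      simp
    · rw [h s h0, mul_zero]
  have h0 := h' 0
  have h1 := h' 1
  have h2 := h' 2
  have h3 := h' 3
  have h4 := h' 4
  have h5 := h' 5
  simp only [qa, qb, Matrix.cons_val_zero, Matrix.cons_val_one, Matrix.cons_val] at h0 h1 h2 h3 h4 h5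
  simp only [Ph, nl]
  linear_combination h0 + h1 + h2 + h3 + h4 + h5

theorem LL_nonneg : ∀ e ∈ LL, ∀ a ∈ e, 0 ≤ a := by decide

/-- **averaging over the tied superbases** -/
theorem avg {F : Finset (Fin 4 → Fin 3 → ℤ)} {y : (Fin 4 → Fin 3 → ℤ) → ℝ}
    {V : (Fin 4 → Fin 3 → ℤ) → Fin 4 → Fin 3 → ℝ} {Q : Matrix (Fin 3) (Fin 3) ℝ} {ε c : ℝ}
    (hε : 0 ≤ ε) (hQ : Q.PosDef) (hQe : Q = ε • 1 + ∑ f ∈ F, y f • gram (V f)) (hy1 : ∑ f ∈ F, y f = 1)
    (hy : ∀ f ∈ F, 0 < y f) (hsb : ∀ f ∈ F, Superbase f)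
    (hmin : ∀ f ∈ F, ∀ g, Superbase g → Pool.Agent.Helper73.FX.PP Q f ≤ Pool.Agent.Helper73.FX.PP Q g)
    (hc : ∀ f ∈ F, Pool.Agent.Helper73.FX.PP Q f ≤ c) :
    ∃ f ∈ F, ∃ e ∈ LL, (∀ s : Fin 6, e.getD s 0 ≠ 0 → sp Q f (qa s) (qb s) = 0) ∧
      Ph e (sp (gram (V f)) f) ≤ 6 * c := by
  classical
  have hs := Pool.Agent.Helper73.FX.psd_symm hQ.posSemidef
  have hne : F.Nonempty := by
    rw [Finset.nonempty_iff_ne_empty]
    rintro rfl
    simp at hy1
  obtain ⟨f0, hf0⟩ := hne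
  obtain ⟨τ, k, hτ⟩ := pattern hQ (hsb f0 hf0) (hmin f0 hf0)
  set f' : Fin 4 → Fin 3 → ℤ := fun i => f0 (τ i) with hf'
  have hf'sb : Superbase f' := Pool.Agent.Helper73.FX.superbase_perm (hsb f0 hf0) τ
  have hPP' : Pool.Agent.Helper73.FX.PP Q f' = Pool.Agent.Helper73.FX.PP Q f0 :=
    Pool.Agent.Helper73.FX.PP_perm Q f0 τ
  have hmin' : ∀ g, Superbase g → Pool.Agent.Helper73.FX.PP Q f' ≤ Pool.Agent.Helper73.FX.PP Q g := by
    intro g hg
    rw [hPP']
    exact hmin f0 hf0 g hg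
  have hval : Ph (nl k) (sp Q f') = 6 * Pool.Agent.Helper73.FX.PP Q f' :=
    Ph_nl_eq hs hf'sb.sum k fun s => (hτ s).2
  -- every tied superbase
  have htied : ∀ g ∈ F, ∃ e ∈ LL, ∀ G : Matrix (Fin 3) (Fin 3) ℝ, G.IsSymm →
      Ph (nl k) (sp G f') = Ph e (sp G g) := by
    intro g hg
    obtain ⟨X, hX⟩ := Pool.Agent.Helper73.FX.coords hf'sb g
    refine tied hf'sb (hsb g hg) X hX k fun s hks => ?_
    have hpos := (hτ s).1 hks
    refine Pool.Agent.Helper73.FX.nn_eq_two hs hf'sb (hsb g hg) X hX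
      (fun l m hlm => Pool.Agent.Helper73.FX.sp_nonneg_of_min hs hf'sb hmin' hlm)
      (e := sp Q f' (qa s) (qb s)) ?_ (qab_ne s) le_rfl
    have h1 := hmin g hg f' hf'sb
    linarith
  -- the average
  have hlin : ε * Ph (nl k) (sp 1 f') + ∑ g ∈ F, y g * Ph (nl k) (sp (gram (V g)) f') =
      6 * Pool.Agent.Helper73.FX.PP Q f' := by
    rw [← hval]
    conv_rhs => rw [hQe]
    rw [Ph_sp_add, Ph_sp_smul, Ph_sp_sum]
    simp only [Ph_sp_smul]
  have h1 : 0 ≤ Ph (nl k) (sp 1 f') := Ph_nonneg PosSemidef.one hf'sb.sum k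
  have h2 : ∑ g ∈ F, y g * Ph (nl k) (sp (gram (V g)) f') ≤ 6 * c := by
    have h3 := hc f0 hf0
    have h4 := mul_nonneg hε h1
    rw [hPP'] at hlin
    linarith
  obtain ⟨g, hg, hgle⟩ : ∃ g ∈ F, Ph (nl k) (sp (gram (V g)) f') ≤ 6 * c := by
    by_contra hcon
    push Not at hcon
    have h5 : ∑ g ∈ F, y g * (6 * c) < ∑ g ∈ F, y g * Ph (nl k) (sp (gram (V g)) f') :=
      Finset.sum_lt_sum_of_nonempty ⟨f0, hf0⟩ fun g hg => mul_lt_mul_of_pos_left (hcon g hg) (hy g hg)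
    rw [← Finset.sum_mul, hy1, one_mul] at h5
    linarith
  obtain ⟨e, he, hGe⟩ := htied g hg
  refine ⟨g, hg, e, he, ?_, ?_⟩
  · have h6 : Ph e (sp Q g) = 6 * Pool.Agent.Helper73.FX.PP Q g := by
      rw [← hGe Q hs, hval]
      congr 1
      exact le_antisymm (hmin' g (hsb g hg)) (hmin g hg f' hf'sb)
    have hp : ∀ s, 0 ≤ sp Q g (qa s) (qb s) := fun s =>
      Pool.Agent.Helper73.FX.sp_nonneg_of_min hs (hsb g hg) (hmin g hg) (qab_ne s)
    have hlen := LL_length e he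
    have hnn := LL_nonneg e he
    obtain ⟨e0, e1, e2, e3, e4, e5, rfl⟩ : ∃ e0 e1 e2 e3 e4 e5, e = [e0, e1, e2, e3, e4, e5] := by
      match e, hlen with
      | [e0, e1, e2, e3, e4, e5], _ => exact ⟨e0, e1, e2, e3, e4, e5, rfl⟩
    rw [Pool.Agent.Helper73.FX.PP_self hs (hsb g hg).sum] at h6
    simp only [Ph] at h6
    have p0 := hp 0
    have p1 := hp 1
    have p2 := hp 2
    have p3 := hp 3
    have p4 := hp 4
    have p5 := hp 5
    simp only [qa, qb, Matrix.cons_val_zero, Matrix.cons_val_one, Matrix.cons_val] at p0 p1 p2 p3 p4 p5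
    have n0 : (0 : ℝ) ≤ e0 := by exact_mod_cast hnn e0 (by simp)
    have n1 : (0 : ℝ) ≤ e1 := by exact_mod_cast hnn e1 (by simp)
    have n2 : (0 : ℝ) ≤ e2 := by exact_mod_cast hnn e2 (by simp)
    have n3 : (0 : ℝ) ≤ e3 := by exact_mod_cast hnn e3 (by simp)
    have n4 : (0 : ℝ) ≤ e4 := by exact_mod_cast hnn e4 (by simp)
    have n5 : (0 : ℝ) ≤ e5 := by exact_mod_cast hnn e5 (by simp)
    have m0 := mul_nonneg n0 p0
    have m1 := mul_nonneg n1 p1
    have m2 := mul_nonneg n2 p2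
    have m3 := mul_nonneg n3 p3
    have m4 := mul_nonneg n4 p4
    have m5 := mul_nonneg n5 p5
    have hz : ∀ (a : ℤ) (p : ℝ), 0 ≤ (a : ℝ) * p → (a : ℝ) * p ≤ 0 → a ≠ 0 → p = 0 := by
      intro a p h7 h8 h9
      rcases mul_eq_zero.1 (le_antisymm h8 h7) with h10 | h10
      · exact absurd (by exact_mod_cast h10) h9
      · exact h10
    intro s
    fin_cases s
    · intro h
      exact hz e0 (sp Q g 0 1) m0 (by linarith) (by simpa using h)
    · intro h
      exact hz e1 (sp Q g 0 2) m1 (by linarith) (by simpa using h)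
    · intro h
      exact hz e2 (sp Q g 0 3) m2 (by linarith) (by simpa using h)
    · intro h
      exact hz e3 (sp Q g 1 2) m3 (by linarith) (by simpa using h)
    · intro h
      exact hz e4 (sp Q g 1 3) m4 (by linarith) (by simpa using h)
    · intro h
      exact hz e5 (sp Q g 2 3) m5 (by linarith) (by simpa using h)
  · have hsym : (gram (V g)).IsSymm := by
      ext a b
      exact (Pool.Agent.Helper1.FX.gram_symm (V g) b a)
    rw [← hGe _ hsym]
    exact hgle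

end Pool.Agent.Helper21.FX
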