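import Pool.Agent.Helper21.FX.Avg

/-!
# MP_be0fb5, full answer: the averaged circuit of a lattice-free body

`avg_body`: a lattice-free body whose width is at least `W` in every integer direction has, for every `c > 6/W²`, a
superbase `f` and a balanced chain simplex of separators with `∑ (6 + e_s) p_s ≤ 6 c`.
-/

set_option autoImplicit false

namespace Pool.Agent.Helper21.FX

open Matrix Pool.Agent.Helper12.LW
open Pool.Agent.Helper84.FL (Superbase)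
open Pool.Agent.Helper73.FX (sp)
open Pool.Agent.Helper1.FX (gram)

/-- Foster's bound for the minimal length at an equilibrium -/
theorem P_le {K : Set (Fin 3 → ℝ)} {F : Finset (Fin 4 → Fin 3 → ℤ)} {y : (Fin 4 → Fin 3 → ℤ) → ℝ}
    {V : (Fin 4 → Fin 3 → ℤ) → Fin 4 → Fin 3 → ℝ} {Q : Matrix (Fin 3) (Fin 3) ℝ} {ε W D : ℝ}
    (hε : 0 ≤ ε) (hQ : Q.PosDef) (hQe : Q = ε • 1 + ∑ f ∈ F, y f • gram (V f)) (hy1 : ∑ f ∈ F, y f = 1)
    (hy : ∀ f ∈ F, 0 < y f)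
    (hV : ∀ f ∈ F, ∃ P : Fin 4 → Fin 3 → ℤ, Sep4 K P (V f))
    (hD : ∀ x ∈ K, ∀ x' ∈ K, ∑ a, (x - x') a ^ 2 ≤ D) (hW : 0 < W)
    (hwide : ∀ u : Fin 3 → ℤ, u ≠ 0 → ∃ x ∈ K, ∃ x' ∈ K, W ≤ toR u ⬝ᵥ (x - x'))
    {f : Fin 4 → Fin 3 → ℤ} (hf : Superbase f)
    (hmin : ∀ g, Superbase g → Pool.Agent.Helper73.FX.PP Q f ≤ Pool.Agent.Helper73.FX.PP Q g) :
    Pool.Agent.Helper73.FX.PP Q f * W ^ 2 ≤ 3 * (2 + ε * D) := by
  have hs := Pool.Agent.Helper73.FX.psd_symm hQ.posSemidef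
  have hqf : ∀ x ∈ K, ∀ x' ∈ K, qf Q (x - x') ≤ 2 + ε * D := by
    intro x hx x' hx'
    rw [hQe, Pool.Agent.Helper1.FX.qf_add, Pool.Agent.Helper1.FX.qf_smul, Pool.Agent.Helper1.FX.qf_one,
      Pool.Agent.Helper1.FX.qf_sum]
    have h3 : ∑ f ∈ F, qf (y f • gram (V f)) (x - x') ≤ ∑ f ∈ F, y f * 2 := by
      refine Finset.sum_le_sum (fun f hf => ?_)
      rw [Pool.Agent.Helper1.FX.qf_smul]
      obtain ⟨P, hP⟩ := hV f hf
      exact mul_le_mul_of_nonneg_left (Pool.Agent.Helper1.FX.gram_le_two hP hx hx') (hy f hf).le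
    rw [← Finset.sum_mul, hy1, one_mul] at h3
    have h4 := mul_le_mul_of_nonneg_left (hD x hx x' hx') hε
    linarith
  have hinv : ∀ u : Fin 3 → ℤ, u ≠ 0 → W ^ 2 ≤ (2 + ε * D) * qf Q⁻¹ (toR u) := by
    intro u hu
    obtain ⟨x, hx, x', hx', hw⟩ := hwide u hu
    have h1 := Pool.Agent.Helper73.FX.sq_le_inv hQ (toR u) (x - x')
    have h2 := hqf x hx x' hx'
    have h5 : 0 ≤ qf Q⁻¹ (toR u) := Pool.Agent.Helper73.FX.qf_nonneg hQ.inv.posSemidef _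
    have h6 : W ^ 2 ≤ (toR u ⬝ᵥ (x - x')) ^ 2 := pow_le_pow_left₀ hW.le hw 2
    calc W ^ 2 ≤ qf Q⁻¹ (toR u) * qf Q (x - x') := h6.trans h1
      _ ≤ qf Q⁻¹ (toR u) * (2 + ε * D) := mul_le_mul_of_nonneg_left h2 h5
      _ = _ := mul_comm _ _
  obtain ⟨w, hw⟩ := Pool.Agent.Helper73.FX.exists_dual hf
  have hfos := Pool.Agent.Helper73.FX.foster hQ hf.sum hw
  have hsum := Pool.Agent.Helper73.FX.sum_pw hs hf.sum
  have hp : ∀ l m, l ≠ m → 0 ≤ sp Q f l m := fun l m hlm =>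
    Pool.Agent.Helper73.FX.sp_nonneg_of_min hs hf hmin hlm
  have h7 : ∑ l, ∑ m, Pool.Agent.Helper73.FX.pw Q f l m * W ^ 2 ≤
      ∑ l, ∑ m, (2 + ε * D) * (Pool.Agent.Helper73.FX.pw Q f l m *
        qf Q⁻¹ (Pool.Agent.Helper73.FX.U w l m)) := by
    refine Finset.sum_le_sum fun l _ => Finset.sum_le_sum fun m _ => ?_
    by_cases hlm : l = m
    · simp [Pool.Agent.Helper73.FX.pw, hlm]
    · have h8 := hinv _ (Pool.Agent.Helper73.FX.U_ne hw hlm)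
      have h9 := Pool.Agent.Helper73.FX.pw_nonneg hp l m
      calc Pool.Agent.Helper73.FX.pw Q f l m * W ^ 2
          ≤ Pool.Agent.Helper73.FX.pw Q f l m * ((2 + ε * D) * qf Q⁻¹ (toR (w l - w m))) :=
            mul_le_mul_of_nonneg_left h8 h9
        _ = _ := by
            rw [Pool.Agent.Helper73.FX.U]
            ring
  simp only [← Finset.sum_mul, ← Finset.mul_sum] at h7
  rw [hsum, hfos] at h7
  linarith

theorem PP_same (Q : Matrix (Fin 3) (Fin 3) ℝ) (f : Fin 4 → Fin 3 → ℤ) :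
    Pool.Agent.Helper1.FX.PP Q f = Pool.Agent.Helper73.FX.PP Q f := rfl

/-- **the averaged circuit** -/
theorem avg_body (K : Set (Fin 3 → ℝ)) (hK : LFree K) (W : ℝ) (hW : 0 < W)
    (hwide : ∀ u : Fin 3 → ℤ, u ≠ 0 → ∃ x ∈ K, ∃ x' ∈ K, W ≤ toR u ⬝ᵥ (x - x')) (c : ℝ)
    (hc : 6 < c * W ^ 2) :
    ∃ (f : Fin 4 → Fin 3 → ℤ) (z : Fin 3 → ℤ) (σ : Equiv.Perm (Fin 3)) (v : Fin 4 → Fin 3 → ℝ),
      Superbase f ∧ Sep4 K (chainP f z σ) v ∧ ∃ e ∈ LL, Ph e (sp (gram v) f) ≤ 6 * c := by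
  obtain ⟨D, hD0, hD⟩ := Pool.Agent.Helper1.FX.diam_bound K hK.compact.isBounded
  set ε : ℝ := (c * W ^ 2 - 6) / (3 * (D + 1)) with hεdef
  have hε : 0 < ε := div_pos (by linarith) (by linarith)
  have hεD : 3 * (ε * D) ≤ c * W ^ 2 - 6 := by
    have h1 : ε * (3 * (D + 1)) = c * W ^ 2 - 6 := by
      rw [hεdef]
      field_simp
    nlinarith
  obtain ⟨F, y, z, σ, V, Q, hQ, hQe, hy1, hF⟩ := Pool.Agent.Helper1.FX.equilibrium K hK ε hε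
  have hmin : ∀ f ∈ F, ∀ g, Superbase g →
      Pool.Agent.Helper73.FX.PP Q f ≤ Pool.Agent.Helper73.FX.PP Q g := fun f hf => (hF f hf).2.2.2.1
  have hP : ∀ f ∈ F, Pool.Agent.Helper73.FX.PP Q f ≤ c := by
    intro f hf
    have h1 := P_le (K := K) (W := W) (D := D) hε.le hQ hQe hy1 (fun f hf => (hF f hf).1)
      (fun f hf => ⟨_, (hF f hf).2.2.2.2⟩) hD hW hwide (hF f hf).2.1 (hmin f hf)
    have h2 : 0 < W ^ 2 := by positivity
    have h3 : Pool.Agent.Helper73.FX.PP Q f * W ^ 2 ≤ c * W ^ 2 := by linarith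
    exact le_of_mul_le_mul_right h3 h2
  obtain ⟨f, hf, e, he, -, hle⟩ := avg hε.le hQ hQe hy1 (fun f hf => (hF f hf).1)
    (fun f hf => (hF f hf).2.1) hmin hP
  exact ⟨f, z f, σ f, V f, (hF f hf).2.1, (hF f hf).2.2.2.2, e, he, hle⟩

end Pool.Agent.Helper21.FX
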