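import Mathlib

/-! MP_be0fb5, fixed point theorem: balanced weights are convex combinations of circuits. -/

set_option autoImplicit false

namespace Pool.Agent.Helper21.FX

/-- affine independence of the separators `n z`, `z ∈ T`, in the form needed here -/
def Ind (n : (Fin 3 → ℤ) → (Fin 3 → ℝ)) (T : Finset (Fin 3 → ℤ)) : Prop :=
  ∀ κ : (Fin 3 → ℤ) → ℝ, ∑ z ∈ T, κ z = 0 → ∑ z ∈ T, κ z • n z = 0 → ∀ z ∈ T, κ z = 0

/-- `μ` is the normalised positive relation of the separators of the minimal dependent set `T` -/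
structure Circ (n : (Fin 3 → ℤ) → (Fin 3 → ℝ)) (T : Finset (Fin 3 → ℤ)) (μ : (Fin 3 → ℤ) → ℝ) :
    Prop where
  pos : ∀ z ∈ T, 0 < μ z
  zero : ∀ z, z ∉ T → μ z = 0
  one : ∑ z ∈ T, μ z = 1
  bal : ∑ z ∈ T, μ z • n z = 0
  ind : Ind n T

theorem Circ.unique {n : (Fin 3 → ℤ) → (Fin 3 → ℝ)} {T : Finset (Fin 3 → ℤ)}
    {μ μ' : (Fin 3 → ℤ) → ℝ} (h : Circ n T μ) (h' : Circ n T μ') : μ = μ' := by
  funext z
  by_cases hz : z ∈ T
  · have h1 := h.ind (fun z => μ z - μ' z) (by
      rw [Finset.sum_sub_distrib, h.one, h'.one, sub_self]) (by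
      simp only [sub_smul]
      rw [Finset.sum_sub_distrib, h.bal, h'.bal, sub_self]) z hz
    linarith
  · rw [h.zero z hz, h'.zero z hz]

theorem Circ.nonneg {n : (Fin 3 → ℤ) → (Fin 3 → ℝ)} {T : Finset (Fin 3 → ℤ)}
    {μ : (Fin 3 → ℤ) → ℝ} (h : Circ n T μ) (z : Fin 3 → ℤ) : 0 ≤ μ z := by
  by_cases hz : z ∈ T
  · exact (h.pos z hz).le
  · rw [h.zero z hz]

theorem Circ.le_one {n : (Fin 3 → ℤ) → (Fin 3 → ℝ)} {T : Finset (Fin 3 → ℤ)}
    {μ : (Fin 3 → ℤ) → ℝ} (h : Circ n T μ) (z : Fin 3 → ℤ) : μ z ≤ 1 := by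
  by_cases hz : z ∈ T
  · rw [← h.one]
    exact Finset.single_le_sum (fun z _ => h.nonneg z) hz
  · rw [h.zero z hz]
    exact zero_le_one

/-- at most four vectors in a circuit -/
theorem Circ.card_le {n : (Fin 3 → ℤ) → (Fin 3 → ℝ)} {T : Finset (Fin 3 → ℤ)}
    {μ : (Fin 3 → ℤ) → ℝ} (h : Circ n T μ) : T.card ≤ 4 := by
  classical
  have hli : LinearIndependent ℝ (fun z : T => ((n z, (1 : ℝ)) : (Fin 3 → ℝ) × ℝ)) := by
    rw [Fintype.linearIndependent_iff]
    intro g hg z
    have h1 := congrArg Prod.fst hg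
    have h2 := congrArg Prod.snd hg
    simp only [Prod.fst_sum, Prod.smul_fst, Prod.fst_zero] at h1
    simp only [Prod.snd_sum, Prod.smul_snd, Prod.snd_zero, smul_eq_mul, mul_one] at h2
    have h3 := h.ind (fun w => if hw : w ∈ T then g ⟨w, hw⟩ else 0) (by
      rw [← Finset.sum_coe_sort]
      rw [← h2]
      refine Finset.sum_congr rfl (fun w _ => ?_)
      rw [dif_pos w.2]) (by
      rw [← Finset.sum_coe_sort]
      rw [← h1]
      refine Finset.sum_congr rfl (fun w _ => ?_)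
      rw [dif_pos w.2]) z z.2
    rw [dif_pos z.2] at h3
    exact h3
  have h4 := hli.fintype_card_le_finrank
  rw [Fintype.card_coe] at h4
  simpa using h4

open Classical in
/-- the weights of a circuit -/
noncomputable def cm (n : (Fin 3 → ℤ) → (Fin 3 → ℝ)) (T : Finset (Fin 3 → ℤ)) :
    (Fin 3 → ℤ) → ℝ := if h : ∃ μ, Circ n T μ then h.choose else 0

theorem cm_spec {n : (Fin 3 → ℤ) → (Fin 3 → ℝ)} {T : Finset (Fin 3 → ℤ)} (h : ∃ μ, Circ n T μ) :
    Circ n T (cm n T) := by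
  unfold cm
  rw [dif_pos h]
  exact h.choose_spec

/-- balanced weights on `B` -/
structure Bal (n : (Fin 3 → ℤ) → (Fin 3 → ℝ)) (B : Finset (Fin 3 → ℤ)) (μ : (Fin 3 → ℤ) → ℝ) :
    Prop where
  nonneg : ∀ z, 0 ≤ μ z
  zero : ∀ z, z ∉ B → μ z = 0
  one : ∑ z ∈ B, μ z = 1
  bal : ∑ z ∈ B, μ z • n z = 0

/-- moving along a relation until a weight vanishes -/
theorem move {n : (Fin 3 → ℤ) → (Fin 3 → ℝ)} {B : Finset (Fin 3 → ℤ)} {μ : (Fin 3 → ℤ) → ℝ}
    (h : Bal n B μ) (κ : (Fin 3 → ℤ) → ℝ) (hκ0 : ∀ z, μ z = 0 → κ z = 0)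
    (h1 : ∑ z ∈ B, κ z = 0) (h2 : ∑ z ∈ B, κ z • n z = 0) (hneg : ∃ z ∈ B, κ z < 0) :
    ∃ t : ℝ, 0 < t ∧ Bal n B (fun z => μ z + t * κ z) ∧
      (∃ z ∈ B, μ z ≠ 0 ∧ μ z + t * κ z = 0) := by
  classical
  obtain ⟨z1, hz1, hz1n⟩ := hneg
  obtain ⟨z0, hz0, hmin⟩ := Finset.exists_min_image (B.filter (fun z => κ z < 0))
    (fun z => μ z / (-κ z)) ⟨z1, Finset.mem_filter.2 ⟨hz1, hz1n⟩⟩
  rw [Finset.mem_filter] at hz0
  have hμ0 : μ z0 ≠ 0 := fun h0 => absurd (hκ0 z0 h0) hz0.2.ne
  have hμpos : 0 < μ z0 := lt_of_le_of_ne (h.nonneg z0) (Ne.symm hμ0)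
  have hk : 0 < -κ z0 := by linarith [hz0.2]
  refine ⟨μ z0 / (-κ z0), div_pos hμpos hk, ⟨?_, ?_, ?_, ?_⟩, z0, hz0.1, hμ0, ?_⟩
  · intro z
    by_cases hzn : κ z < 0
    · by_cases hzB : z ∈ B
      · have h3 := hmin z (Finset.mem_filter.2 ⟨hzB, hzn⟩)
        have hkz : 0 < -κ z := by linarith
        rw [le_div_iff₀ hkz] at h3
        have h4 : μ z + μ z0 / -κ z0 * κ z = μ z - μ z0 / -κ z0 * -κ z := by ring
        rw [h4]
        linarith
      · have h5 := hκ0 z (h.zero z hzB)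
        rw [h5] at hzn
        exact absurd hzn (lt_irrefl _)
    · have h3 := h.nonneg z
      have h4 : 0 ≤ μ z0 / -κ z0 := (div_pos hμpos hk).le
      have h5 := mul_nonneg h4 (not_lt.1 hzn)
      linarith
  · intro z hz
    rw [h.zero z hz, hκ0 z (h.zero z hz), mul_zero, add_zero]
  · rw [Finset.sum_add_distrib, ← Finset.mul_sum, h.one, h1, mul_zero, add_zero]
  · simp only [add_smul, mul_smul]
    rw [Finset.sum_add_distrib, ← Finset.smul_sum, h.bal, h2, smul_zero, add_zero]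
  · have hk' : κ z0 ≠ 0 := hz0.2.ne
    rw [div_neg, neg_mul, div_mul_cancel₀ _ hk']
    ring

/-- **balanced weights are convex combinations of circuits inside their support** -/
theorem carath (n : (Fin 3 → ℤ) → (Fin 3 → ℝ)) (B : Finset (Fin 3 → ℤ)) :
    ∀ (k : ℕ) (μ : (Fin 3 → ℤ) → ℝ), (B.filter (fun z => μ z ≠ 0)).card = k → Bal n B μ →
      ∃ w : Finset (Fin 3 → ℤ) → ℝ, (∀ T, 0 ≤ w T) ∧
        (∀ T, w T ≠ 0 → T ⊆ B ∧ (∃ ν, Circ n T ν) ∧ ∀ z ∈ T, μ z ≠ 0) ∧
        ∀ z, ∑ T ∈ B.powerset, w T * cm n T z = μ z := by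
  classical
  intro k
  induction k using Nat.strong_induction_on with
  | _ k ih =>
    intro μ hcard h
    set S : Finset (Fin 3 → ℤ) := B.filter (fun z => μ z ≠ 0) with hS
    have hSB : S ⊆ B := Finset.filter_subset _ _
    by_cases hind : Ind n S
    · have hcirc : Circ n S μ := by
        refine ⟨?_, ?_, ?_, ?_, hind⟩
        · intro z hz
          exact lt_of_le_of_ne (h.nonneg z) (Ne.symm (Finset.mem_filter.1 hz).2)
        · intro z hz
          by_contra hne
          by_cases hzB : z ∈ B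
          · exact hz (Finset.mem_filter.2 ⟨hzB, hne⟩)
          · exact hne (h.zero z hzB)
        · rw [← h.one]
          exact Finset.sum_filter_ne_zero B
        · rw [← h.bal]
          refine Finset.sum_subset hSB (fun z hzB hz => ?_)
          have : μ z = 0 := by
            by_contra hne
            exact hz (Finset.mem_filter.2 ⟨hzB, hne⟩)
          rw [this, zero_smul]
      have hcm : cm n S = μ := (cm_spec ⟨μ, hcirc⟩).unique hcirc
      refine ⟨fun T => if T = S then 1 else 0, ?_, ?_, ?_⟩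
      · intro T
        dsimp only
        split_ifs
        · exact zero_le_one
        · exact le_refl _
      · intro T hT
        dsimp only at hT
        have hTS : T = S := by
          by_contra hne
          rw [if_neg hne] at hT
          exact hT rfl
        rw [hTS]
        exact ⟨hSB, ⟨μ, hcirc⟩, fun z hz => (Finset.mem_filter.1 hz).2⟩
      · intro z
        simp only [ite_mul, one_mul, zero_mul]
        rw [Finset.sum_ite_eq' B.powerset S (fun T => cm n T z), if_pos (Finset.mem_powerset.2 hSB),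
          hcm]
    · unfold Ind at hind
      push Not at hind
      obtain ⟨κ0, hκ1, hκ2, z0, hz0, hκne⟩ := hind
      set κ : (Fin 3 → ℤ) → ℝ := fun z => if z ∈ S then κ0 z else 0 with hκ
      have hκS : ∀ z ∈ S, κ z = κ0 z := fun z hz => if_pos hz
      have hκn : ∀ z, z ∉ S → κ z = 0 := fun z hz => if_neg hz
      have hκ0 : ∀ z, μ z = 0 → κ z = 0 := by
        intro z hz
        apply hκn
        intro hzS
        exact (Finset.mem_filter.1 hzS).2 hz
      have e1 : ∑ z ∈ B, κ z = 0 := by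
        rw [← Finset.sum_subset hSB (fun z _ hz => hκn z hz), ← hκ1]
        exact Finset.sum_congr rfl (fun z hz => hκS z hz)
      have e2 : ∑ z ∈ B, κ z • n z = 0 := by
        rw [← Finset.sum_subset hSB (fun z _ hz => by rw [hκn z hz, zero_smul]), ← hκ2]
        exact Finset.sum_congr rfl (fun z hz => by rw [hκS z hz])
      have hz0B : z0 ∈ B := hSB hz0
      have hκz0 : κ z0 ≠ 0 := by rw [hκS z0 hz0]; exact hκne
      have hneg : ∃ z ∈ B, κ z < 0 := by
        by_contra hcon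
        push Not at hcon
        exact hκz0 ((Finset.sum_eq_zero_iff_of_nonneg hcon).1 e1 z0 hz0B)
      have hpos : ∃ z ∈ B, -κ z < 0 := by
        by_contra hcon
        push Not at hcon
        have e3 : ∑ z ∈ B, -κ z = 0 := by rw [Finset.sum_neg_distrib, e1, neg_zero]
        have := (Finset.sum_eq_zero_iff_of_nonneg hcon).1 e3 z0 hz0B
        exact hκz0 (neg_eq_zero.1 this)
      obtain ⟨t1, ht1, hb1, y1, hy1B, hy1, hy1z⟩ := move h κ hκ0 e1 e2 hneg
      obtain ⟨t2, ht2, hb2, y2, hy2B, hy2, hy2z⟩ := move h (fun z => -κ z)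
        (fun z hz => by rw [hκ0 z hz, neg_zero]) (by rw [Finset.sum_neg_distrib, e1, neg_zero])
        (by simp only [neg_smul]; rw [Finset.sum_neg_distrib, e2, neg_zero]) hpos
      have hlt : ∀ (t : ℝ) (c : (Fin 3 → ℤ) → ℝ), (∀ z, μ z = 0 → c z = 0) → ∀ y ∈ B, μ y ≠ 0 →
          μ y + t * c y = 0 → (B.filter (fun z => μ z + t * c z ≠ 0)).card < k := by
        intro t c hc y hyB hy hyz
        rw [← hcard]
        apply Finset.card_lt_card
        rw [Finset.ssubset_iff_of_subset]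
        · refine ⟨y, Finset.mem_filter.2 ⟨hyB, hy⟩, ?_⟩
          intro h9
          exact (Finset.mem_filter.1 h9).2 hyz
        · intro z hz
          rw [Finset.mem_filter] at hz ⊢
          refine ⟨hz.1, fun h0 => hz.2 ?_⟩
          rw [h0, hc z h0, mul_zero, add_zero]
      obtain ⟨w1, hw1, hw1', hw1s⟩ := ih _ (hlt t1 κ hκ0 y1 hy1B hy1 hy1z) _ rfl hb1
      obtain ⟨w2, hw2, hw2', hw2s⟩ := ih _ (hlt t2 (fun z => -κ z)
        (fun z hz => by rw [hκ0 z hz, neg_zero]) y2 hy2B hy2 hy2z) _ rfl hb2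
      have ht : 0 < t1 + t2 := by linarith
      refine ⟨fun T => (t2 * w1 T + t1 * w2 T) / (t1 + t2), ?_, ?_, ?_⟩
      · intro T
        have := hw1 T
        have := hw2 T
        positivity
      · intro T hT
        by_cases h1 : w1 T = 0
        · by_cases h2 : w2 T = 0
          · exfalso
            apply hT
            dsimp only
            rw [h1, h2]
            simp
          · obtain ⟨a1, a2, a3⟩ := hw2' T h2
            refine ⟨a1, a2, fun z hz h0 => a3 z hz ?_⟩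
            rw [h0, hκ0 z h0]
            ring
        · obtain ⟨a1, a2, a3⟩ := hw1' T h1
          refine ⟨a1, a2, fun z hz h0 => a3 z hz ?_⟩
          rw [h0, hκ0 z h0]
          ring
      · intro z
        have e3 : ∑ T ∈ B.powerset, (t2 * w1 T + t1 * w2 T) / (t1 + t2) * cm n T z =
            (t2 * ∑ T ∈ B.powerset, w1 T * cm n T z + t1 * ∑ T ∈ B.powerset, w2 T * cm n T z) /
              (t1 + t2) := by
          rw [Finset.mul_sum, Finset.mul_sum, ← Finset.sum_add_distrib, Finset.sum_div]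
          exact Finset.sum_congr rfl (fun T _ => by ring)
        rw [e3, hw1s, hw2s]
        field_simp
        ring

end Pool.Agent.Helper21.FX
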