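import Pool.Agent.Helper21.FX.Normals
import Pool.Agent.Helper21.FX.Circ
import Pool.Agent.Helper52.Brouwer.Main

/-! MP_be0fb5, fixed point theorem inside one Delaunay cell: the step with a positive tolerance. -/

set_option autoImplicit false

namespace Pool.Agent.Helper21.FX

open Matrix

/-- clamping: the variational inequality -/
theorem clamp_vi (a b l g l' : ℝ) (_hab : a ≤ b) (h : max a (min b (l - g)) = l)
    (h1 : a ≤ l') (h2 : l' ≤ b) : 0 ≤ (l' - l) * g := by
  rcases max_choice a (min b (l - g)) with h3 | h3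
  · -- l = a
    rw [h3] at h
    rcases le_total 0 g with hg | hg
    · exact mul_nonneg (by linarith) hg
    · -- g ≤ 0 : min b (a - g) ≤ a
      have h4 : min b (l - g) ≤ a := by
        rw [← h3]
        exact le_max_right _ _
      rcases min_le_iff.1 h4 with h5 | h5
      · have : l' = l := by linarith
        rw [this, sub_self, zero_mul]
      · have hg0 : g = 0 := by linarith
        rw [hg0, mul_zero]
  · rw [h3] at h
    rcases min_choice b (l - g) with h4 | h4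
    · rw [h4] at h
      -- l = b
      have h5 : b ≤ l - g := by
        rw [← h4]
        exact min_le_right _ _
      have hg : g ≤ 0 := by linarith
      exact mul_nonneg_of_nonpos_of_nonpos (by linarith) hg
    · rw [h4] at h
      have hg : g = 0 := by linarith
      rw [hg, mul_zero]

/-- the finite set of circuits in `B` -/
noncomputable def CC (n : (Fin 3 → ℤ) → (Fin 3 → ℝ)) (B : Finset (Fin 3 → ℤ)) :
    Finset (Finset (Fin 3 → ℤ)) := by
  classical
  exact B.powerset.filter (fun T => ∃ ν, Circ n T ν)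

theorem mem_CC (n : (Fin 3 → ℤ) → (Fin 3 → ℝ)) (B T : Finset (Fin 3 → ℤ)) :
    T ∈ CC n B ↔ T ⊆ B ∧ ∃ ν, Circ n T ν := by
  classical
  unfold CC
  rw [Finset.mem_filter, Finset.mem_powerset]

/-- the form of a mixture of circuits -/
noncomputable def QQ (n : (Fin 3 → ℤ) → (Fin 3 → ℝ)) (B : Finset (Fin 3 → ℤ)) (ε : ℝ)
    (lam : Finset (Fin 3 → ℤ) → ℝ) (y : Fin 3 → ℝ) : ℝ :=
  ε * (y ⬝ᵥ y) + ∑ T ∈ CC n B, lam T * ∑ z ∈ B, (cm n T z * (n z ⬝ᵥ y)) ^ 2

theorem QQ_lower (n : (Fin 3 → ℤ) → (Fin 3 → ℝ)) (B : Finset (Fin 3 → ℤ)) (ε : ℝ)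
    (lam : Finset (Fin 3 → ℤ) → ℝ) (hlam : ∀ T ∈ CC n B, 0 ≤ lam T) (y : Fin 3 → ℝ) :
    ε * (y ⬝ᵥ y) ≤ QQ n B ε lam y := by
  unfold QQ
  have : 0 ≤ ∑ T ∈ CC n B, lam T * ∑ z ∈ B, (cm n T z * (n z ⬝ᵥ y)) ^ 2 :=
    Finset.sum_nonneg (fun T hT => mul_nonneg (hlam T hT)
      (Finset.sum_nonneg (fun z _ => sq_nonneg _)))
  linarith

theorem QQ_upper (n : (Fin 3 → ℤ) → (Fin 3 → ℝ)) (B : Finset (Fin 3 → ℤ)) (ε C0 : ℝ)
    (hn : ∀ z, n z ⬝ᵥ n z ≤ C0)
    (lam : Finset (Fin 3 → ℤ) → ℝ) (hlam : ∀ T ∈ CC n B, 0 ≤ lam T) (hlam1 : ∑ T ∈ CC n B, lam T ≤ 1)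
    (y : Fin 3 → ℝ) : QQ n B ε lam y ≤ (ε + C0) * (y ⬝ᵥ y) := by
  have hy := dot_self_nonneg' y
  have hC0 : 0 ≤ C0 := (dot_self_nonneg' (n 0)).trans (hn 0)
  have h1 : ∀ T ∈ CC n B, ∑ z ∈ B, (cm n T z * (n z ⬝ᵥ y)) ^ 2 ≤ C0 * (y ⬝ᵥ y) := by
    intro T hT
    obtain ⟨hTB, hc⟩ := (mem_CC n B T).1 hT
    have hs := cm_spec hc
    have h2 : ∑ z ∈ B, (cm n T z * (n z ⬝ᵥ y)) ^ 2 ≤ ∑ z ∈ B, cm n T z * (C0 * (y ⬝ᵥ y)) := by
      refine Finset.sum_le_sum (fun z _ => ?_)
      rw [mul_pow]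
      have h3 : (n z ⬝ᵥ y) ^ 2 ≤ C0 * (y ⬝ᵥ y) :=
        (dot_sq_le _ _).trans (mul_le_mul_of_nonneg_right (hn z) hy)
      have h4 : cm n T z ^ 2 ≤ cm n T z := by
        have := hs.nonneg z
        have := hs.le_one z
        nlinarith
      exact mul_le_mul h4 h3 (sq_nonneg _) (hs.nonneg z)
    have h5 : ∑ z ∈ B, cm n T z = 1 := by
      rw [← hs.one]
      symm
      exact Finset.sum_subset hTB (fun z _ hz => hs.zero z hz)
    rw [← Finset.sum_mul, h5, one_mul] at h2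
    exact h2
  unfold QQ
  have h2 : ∑ T ∈ CC n B, lam T * ∑ z ∈ B, (cm n T z * (n z ⬝ᵥ y)) ^ 2 ≤
      ∑ T ∈ CC n B, lam T * (C0 * (y ⬝ᵥ y)) :=
    Finset.sum_le_sum (fun T hT => mul_le_mul_of_nonneg_left (h1 T hT) (hlam T hT))
  rw [← Finset.sum_mul] at h2
  have h3 : (∑ T ∈ CC n B, lam T) * (C0 * (y ⬝ᵥ y)) ≤ 1 * (C0 * (y ⬝ᵥ y)) :=
    mul_le_mul_of_nonneg_right hlam1 (mul_nonneg hC0 hy)
  linarith

/-- **the fixed point with tolerance** `δ` -/
theorem fix_delta (n : (Fin 3 → ℤ) → (Fin 3 → ℝ)) (B : Finset (Fin 3 → ℤ)) (ε δ C0 M R1 : ℝ)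
    (hε : 0 < ε) (hδ : 0 < δ) (hM : 0 < M) (hn : ∀ z, n z ⬝ᵥ n z ≤ C0)
    (hR1 : 3 * (ε + C0) + δ ≤ ε * R1)
    (hBfl : ∀ x : Fin 3 → ℝ, (∀ i, |x i| ≤ M) → (fun i => ⌊x i⌋) ∈ B)
    (hout : ∀ x : Fin 3 → ℝ, (∀ i, |x i| ≤ M) → (∃ i, |x i| = M) → ∀ z : Fin 3 → ℤ,
      (x - ct z) ⬝ᵥ (x - ct z) ≤ R1 → 0 < n z ⬝ᵥ x) :
    ∃ (x : Fin 3 → ℝ) (lam : Finset (Fin 3 → ℤ) → ℝ), (∀ i, |x i| ≤ M) ∧
      (∀ T, 0 ≤ lam T ∧ lam T ≤ 1) ∧ (∑ T ∈ CC n B, lam T = 1) ∧
      (∀ i, ∑ z ∈ B, (∑ T ∈ CC n B, lam T * cm n T z) * n z i = 0) ∧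
      (∀ z ∈ B, ∑ T ∈ CC n B, lam T * cm n T z ≠ 0 → ∀ w ∈ B,
        QQ n B ε lam (x - ct z) ≤ QQ n B ε lam (x - ct w) + δ) := by
  classical
  have hx0 : ∀ i : Fin 3, |(0 : Fin 3 → ℝ) i| ≤ M := by
    intro i
    simpa using hM.le
  have hBne : B.Nonempty := ⟨_, hBfl 0 hx0⟩
  -- the state space
  set ι := Fin 3 ⊕ (CC n B : Finset (Finset (Fin 3 → ℤ))) with hι
  set X : (ι → ℝ) → Fin 3 → ℝ := fun s i => s (Sum.inl i) with hX
  set Λ : (ι → ℝ) → Finset (Fin 3 → ℤ) → ℝ :=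
    fun s T => if h : T ∈ CC n B then s (Sum.inr ⟨T, h⟩) else 0 with hΛ
  set tot : (ι → ℝ) → ℝ := fun s => max 1 (∑ T ∈ CC n B, Λ s T) with htot
  have htot1 : ∀ s, 1 ≤ tot s := fun s => le_max_left _ _
  set L : (ι → ℝ) → Finset (Fin 3 → ℤ) → ℝ := fun s T => Λ s T / tot s with hL
  set m : (ι → ℝ) → ℝ := fun s => B.inf' hBne (fun w => QQ n B ε (L s) (X s - ct w)) with hm
  set w : (ι → ℝ) → (Fin 3 → ℤ) → ℝ := fun s z =>
    max 0 (1 - (QQ n B ε (L s) (X s - ct z) - m s) / δ) with hw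
  set W : (ι → ℝ) → ℝ := fun s => ∑ z ∈ B, w s z with hW
  set μ : (ι → ℝ) → (Fin 3 → ℤ) → ℝ := fun s z => w s z / W s with hμ
  have hw0 : ∀ s z, 0 ≤ w s z := fun s z => le_max_left _ _
  have hW1 : ∀ s, 1 ≤ W s := by
    intro s
    obtain ⟨z, hz, hzm⟩ := Finset.exists_mem_eq_inf' hBne (fun w => QQ n B ε (L s) (X s - ct w))
    have h1 : w s z = 1 := by
      have h2 : QQ n B ε (L s) (X s - ct z) - m s = 0 := by
        rw [hm]
        dsimp only
        rw [hzm, sub_self]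
      rw [hw]
      dsimp only
      rw [h2]
      simp
    calc (1 : ℝ) = w s z := h1.symm
      _ ≤ W s := Finset.single_le_sum (f := fun z => w s z) (fun z _ => hw0 s z) hz
  -- continuity
  have cX : ∀ i, Continuous fun s : ι → ℝ => X s i := fun i => continuous_apply _
  have cΛ : ∀ T, Continuous fun s : ι → ℝ => Λ s T := by
    intro T
    by_cases hT : T ∈ CC n B
    · simp only [hΛ, dif_pos hT]
      exact continuous_apply _
    · simp only [hΛ, dif_neg hT]
      exact continuous_const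
  have ctot : Continuous tot := continuous_const.max (continuous_finsetSum _ (fun T _ => cΛ T))
  have cL : ∀ T, Continuous fun s : ι → ℝ => L s T := fun T =>
    (cΛ T).div ctot (fun s => by have := htot1 s; positivity)
  have cQ : ∀ z : Fin 3 → ℤ, Continuous fun s : ι → ℝ => QQ n B ε (L s) (X s - ct z) := by
    intro z
    unfold QQ
    have cd : ∀ i, Continuous fun s : ι → ℝ => (X s - ct z) i := fun i => (cX i).sub continuous_const
    have c1 : Continuous fun s : ι → ℝ => (X s - ct z) ⬝ᵥ (X s - ct z) := by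
      unfold dotProduct
      exact continuous_finsetSum _ (fun i _ => (cd i).mul (cd i))
    have c2 : ∀ v : Fin 3 → ℝ, Continuous fun s : ι → ℝ => v ⬝ᵥ (X s - ct z) := by
      intro v
      unfold dotProduct
      exact continuous_finsetSum _ (fun i _ => continuous_const.mul (cd i))
    refine (continuous_const.mul c1).add (continuous_finsetSum _ (fun T _ => ?_))
    exact (cL T).mul (continuous_finsetSum _ (fun z _ => (continuous_const.mul (c2 _)).pow 2))
  have cm' : Continuous m := Continuous.finset_inf'_apply hBne (fun z _ => cQ z)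
  have cw : ∀ z, Continuous fun s : ι → ℝ => w s z := fun z =>
    continuous_const.max (continuous_const.sub (((cQ z).sub cm').div_const δ))
  have cW : Continuous W := continuous_finsetSum _ (fun z _ => cw z)
  have cμ : ∀ z, Continuous fun s : ι → ℝ => μ s z := fun z =>
    (cw z).div cW (fun s => by have := hW1 s; positivity)
  -- the map
  set g : (ι → ℝ) → Finset (Fin 3 → ℤ) → ℝ := fun s T =>
    ∑ z ∈ B, (∑ T' ∈ CC n B, Λ s T' * cm n T' z - μ s z) * cm n T z with hg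
  set Φ : (ι → ℝ) → (ι → ℝ) := fun s => Sum.elim
    (fun i => max (-M) (min M (X s i - ∑ z ∈ B, μ s z * n z i)))
    (fun T => max 0 (min 1 (s (Sum.inr T) - g s T.1))) with hΦ
  have cΦ : Continuous Φ := by
    refine continuous_pi (fun j => ?_)
    rcases j with i | T
    · show Continuous fun s => max (-M) (min M (X s i - ∑ z ∈ B, μ s z * n z i))
      exact continuous_const.max (continuous_const.min ((cX i).sub
        (continuous_finsetSum _ (fun z _ => (cμ z).mul continuous_const))))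
    · show Continuous fun s => max 0 (min 1 (s (Sum.inr T) - g s T.1))
      refine continuous_const.max (continuous_const.min ((continuous_apply _).sub ?_))
      refine continuous_finsetSum _ (fun z _ => Continuous.mul ?_ continuous_const)
      exact (continuous_finsetSum _ (fun T' _ => (cΛ T').mul continuous_const)).sub (cμ z)
  set lo : ι → ℝ := Sum.elim (fun _ => -M) (fun _ => 0) with hlo
  set hi : ι → ℝ := Sum.elim (fun _ => M) (fun _ => 1) with hhi
  have hlohi : lo ≤ hi := by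
    intro j
    rcases j with i | T
    · show -M ≤ M
      linarith
    · show (0 : ℝ) ≤ 1
      exact zero_le_one
  obtain ⟨s, hs, hfix⟩ := Pool.Agent.Helper52.Brouwer.brouwer_box lo hi hlohi Φ cΦ.continuousOn (by
    intro s _
    refine ⟨fun j => ?_, fun j => ?_⟩
    · rcases j with i | T
      · exact le_max_left _ _
      · exact le_max_left _ _
    · rcases j with i | T
      · exact max_le (by show -M ≤ M; linarith) (min_le_left _ _)
      · exact max_le (by show (0 : ℝ) ≤ 1; exact zero_le_one) (min_le_left _ _))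
  have hxM : ∀ i, |X s i| ≤ M := fun i => abs_le.2 ⟨hs.1 (Sum.inl i), hs.2 (Sum.inl i)⟩
  have hΛ01 : ∀ T, 0 ≤ Λ s T ∧ Λ s T ≤ 1 := by
    intro T
    by_cases hT : T ∈ CC n B
    · simp only [hΛ, dif_pos hT]
      exact ⟨hs.1 (Sum.inr ⟨T, hT⟩), hs.2 (Sum.inr ⟨T, hT⟩)⟩
    · simp only [hΛ, dif_neg hT]
      exact ⟨le_refl _, zero_le_one⟩
  have hL0 : ∀ T, 0 ≤ L s T := fun T => div_nonneg (hΛ01 T).1 (by have := htot1 s; positivity)
  have hL1 : ∑ T ∈ CC n B, L s T ≤ 1 := by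
    simp only [hL]
    rw [← Finset.sum_div, div_le_one (by have := htot1 s; positivity)]
    exact le_max_right _ _
  have hμ0 : ∀ z, 0 ≤ μ s z := fun z => div_nonneg (hw0 s z) (by have := hW1 s; positivity)
  have hμ1 : ∑ z ∈ B, μ s z = 1 := by
    simp only [hμ]
    rw [← Finset.sum_div]
    exact div_self (by have := hW1 s; positivity)
  -- the support is near the minimum
  have hsupp : ∀ z, μ s z ≠ 0 → ∀ y ∈ B, QQ n B ε (L s) (X s - ct z) ≤
      QQ n B ε (L s) (X s - ct y) + δ := by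
    intro z hz y hy
    have h1 : w s z ≠ 0 := by
      intro h0
      apply hz
      simp only [hμ]
      rw [h0, zero_div]
    have h2 : 0 < 1 - (QQ n B ε (L s) (X s - ct z) - m s) / δ := by
      by_contra hcon
      apply h1
      exact max_eq_left (not_lt.1 hcon)
    have h3 : (QQ n B ε (L s) (X s - ct z) - m s) / δ < 1 := by linarith
    rw [div_lt_one hδ] at h3
    have h4 : m s ≤ QQ n B ε (L s) (X s - ct y) := Finset.inf'_le _ hy
    linarith
  have hnear : ∀ z, μ s z ≠ 0 → (X s - ct z) ⬝ᵥ (X s - ct z) ≤ R1 := by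
    intro z hz
    have h1 := hsupp z hz _ (hBfl _ hxM)
    have h2 := QQ_lower n B ε (L s) (fun T _ => hL0 T) (X s - ct z)
    have h3 := QQ_upper n B ε C0 hn (L s) (fun T _ => hL0 T) hL1 (X s - ct (fun i => ⌊X s i⌋))
    have h4 : (X s - ct (fun i => ⌊X s i⌋)) ⬝ᵥ (X s - ct (fun i => ⌊X s i⌋)) ≤ 3 := by
      have h5 : ∀ i, ((X s - ct (fun i => ⌊X s i⌋)) i) ^ 2 ≤ 1 := by
        intro i
        have h6 : (X s - ct (fun i => ⌊X s i⌋)) i = Int.fract (X s i) := rfl
        rw [h6]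
        have := Int.fract_nonneg (X s i)
        have := (Int.fract_lt_one (X s i)).le
        nlinarith
      have h7 : (X s - ct (fun i => ⌊X s i⌋)) ⬝ᵥ (X s - ct (fun i => ⌊X s i⌋)) =
          ∑ i, ((X s - ct (fun i => ⌊X s i⌋)) i) ^ 2 := by
        unfold dotProduct
        exact Finset.sum_congr rfl (fun i _ => by ring)
      rw [h7, Fin.sum_univ_three]
      have := h5 0
      have := h5 1
      have := h5 2
      linarith
    have hC0 : 0 ≤ C0 := (dot_self_nonneg' (n 0)).trans (hn 0)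
    have h5 : (ε + C0) * ((X s - ct (fun i => ⌊X s i⌋)) ⬝ᵥ (X s - ct (fun i => ⌊X s i⌋))) ≤
        (ε + C0) * 3 := mul_le_mul_of_nonneg_left h4 (by linarith)
    have h6 : ε * ((X s - ct z) ⬝ᵥ (X s - ct z)) ≤ ε * R1 := by linarith
    exact le_of_mul_le_mul_left h6 hε
  -- the first block: N = 0
  have hXfix : ∀ i, max (-M) (min M (X s i - ∑ z ∈ B, μ s z * n z i)) = X s i := fun i =>
    congrFun hfix (Sum.inl i)
  have hN : ∀ i, ∑ z ∈ B, μ s z * n z i = 0 := by
    have hint : ∀ i, |X s i| < M → ∑ z ∈ B, μ s z * n z i = 0 := by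
      intro i hi
      have h1 := hXfix i
      rw [abs_lt] at hi
      rcases max_choice (-M) (min M (X s i - ∑ z ∈ B, μ s z * n z i)) with h2 | h2
      · rw [h2] at h1; linarith
      · rw [h2] at h1
        rcases min_choice M (X s i - ∑ z ∈ B, μ s z * n z i) with h3 | h3
        · rw [h3] at h1; linarith
        · rw [h3] at h1; linarith
    by_cases hb : ∃ i, |X s i| = M
    · exfalso
      have h1 : ∑ i, (∑ z ∈ B, μ s z * n z i) * X s i ≤ 0 := by
        refine Finset.sum_nonpos (fun i _ => ?_)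
        have h2 := clamp_vi (-M) M (X s i) (∑ z ∈ B, μ s z * n z i) 0 (by linarith) (hXfix i)
          (by linarith) hM.le
        linarith
      have h2 : ∑ i, (∑ z ∈ B, μ s z * n z i) * X s i = ∑ z ∈ B, μ s z * (n z ⬝ᵥ X s) := by
        simp only [dotProduct, Finset.sum_mul, Finset.mul_sum]
        rw [Finset.sum_comm]
        exact Finset.sum_congr rfl (fun z _ => Finset.sum_congr rfl (fun i _ => by ring))
      rw [h2] at h1
      have h3 : 0 < ∑ z ∈ B, μ s z * (n z ⬝ᵥ X s) := by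
        obtain ⟨z, hz, hzne⟩ : ∃ z ∈ B, μ s z ≠ 0 := by
          by_contra hcon
          push Not at hcon
          rw [Finset.sum_eq_zero hcon] at hμ1
          exact zero_ne_one hμ1
        refine Finset.sum_pos' (fun z _ => ?_) ⟨z, hz, ?_⟩
        · by_cases h0 : μ s z = 0
          · rw [h0, zero_mul]
          · exact mul_nonneg (hμ0 z) (hout _ hxM hb z (hnear z h0)).le
        · exact mul_pos (lt_of_le_of_ne (hμ0 z) (Ne.symm hzne)) (hout _ hxM hb z (hnear z hzne))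
      linarith
    · push Not at hb
      intro i
      exact hint i (lt_of_le_of_ne (hxM i) (hb i))
  -- the second block
  have hbal : Bal n B (fun z => if z ∈ B then μ s z else 0) := by
    refine ⟨?_, ?_, ?_, ?_⟩
    · intro z
      split_ifs
      · exact hμ0 z
      · exact le_refl _
    · intro z hz
      exact if_neg hz
    · rw [← hμ1]
      exact Finset.sum_congr rfl (fun z hz => if_pos hz)
    · funext i
      rw [Finset.sum_apply, Pi.zero_apply, ← hN i]
      refine Finset.sum_congr rfl (fun z hz => ?_)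
      rw [if_pos hz, Pi.smul_apply, smul_eq_mul]
  obtain ⟨v, hv0, hv1, hvs⟩ := carath n B _ _ rfl hbal
  have hvs' : ∀ z ∈ B, ∑ T ∈ CC n B, v T * cm n T z = μ s z := by
    intro z hz
    have h1 := hvs z
    rw [if_pos hz] at h1
    rw [← h1]
    refine Finset.sum_subset (fun T hT => Finset.mem_powerset.2 ((mem_CC n B T).1 hT).1)
      (fun T _ hT => ?_)
    have h2 : v T = 0 := by
      by_contra hne
      obtain ⟨a1, a2, -⟩ := hv1 T hne
      exact hT ((mem_CC n B T).2 ⟨a1, a2⟩)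
    rw [h2, zero_mul]
  have hcm1 : ∀ T ∈ CC n B, ∑ z ∈ B, cm n T z = 1 := by
    intro T hT
    obtain ⟨hTB, hc⟩ := (mem_CC n B T).1 hT
    rw [← (cm_spec hc).one]
    symm
    exact Finset.sum_subset hTB (fun z _ hz => (cm_spec hc).zero z hz)
  have hsum1 : ∀ u : Finset (Fin 3 → ℤ) → ℝ, (∀ z ∈ B, ∑ T ∈ CC n B, u T * cm n T z = μ s z) →
      ∑ T ∈ CC n B, u T = 1 := by
    intro u hu
    have h1 : ∑ z ∈ B, ∑ T ∈ CC n B, u T * cm n T z = 1 := by
      rw [← hμ1]
      exact Finset.sum_congr rfl (fun z hz => hu z hz)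
    rw [Finset.sum_comm] at h1
    rw [← h1]
    refine Finset.sum_congr rfl (fun T hT => ?_)
    rw [← Finset.mul_sum, hcm1 T hT, mul_one]
  have hv1' : ∀ T ∈ CC n B, v T ≤ 1 := by
    intro T hT
    rw [← hsum1 v hvs']
    exact Finset.single_le_sum (f := fun T => v T) (fun T _ => hv0 T) hT
  have hvi : ∀ T ∈ CC n B, 0 ≤ (v T - Λ s T) * g s T := by
    intro T hT
    have h1 : max 0 (min 1 (s (Sum.inr ⟨T, hT⟩) - g s T)) = s (Sum.inr ⟨T, hT⟩) :=
      congrFun hfix (Sum.inr ⟨T, hT⟩)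
    have h2 : Λ s T = s (Sum.inr ⟨T, hT⟩) := by
      simp only [hΛ, dif_pos hT]
    rw [← h2] at h1
    exact clamp_vi 0 1 (Λ s T) (g s T) (v T) zero_le_one h1 (hv0 T) (hv1' T hT)
  set res : (Fin 3 → ℤ) → ℝ := fun z => ∑ T' ∈ CC n B, Λ s T' * cm n T' z - μ s z with hres
  have hkey : ∑ T ∈ CC n B, (v T - Λ s T) * g s T = -∑ z ∈ B, res z ^ 2 := by
    have h1 : ∑ T ∈ CC n B, (v T - Λ s T) * g s T =
        ∑ z ∈ B, res z * ∑ T ∈ CC n B, (v T - Λ s T) * cm n T z := by
      simp only [hg, Finset.mul_sum]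
      rw [Finset.sum_comm]
      exact Finset.sum_congr rfl (fun z _ => Finset.sum_congr rfl (fun T _ => by
        simp only [hres]
        ring))
    rw [h1, ← Finset.sum_neg_distrib]
    refine Finset.sum_congr rfl (fun z hz => ?_)
    have h2 : ∑ T ∈ CC n B, (v T - Λ s T) * cm n T z = -res z := by
      simp only [sub_mul]
      rw [Finset.sum_sub_distrib, hvs' z hz]
      simp only [hres]
      ring
    rw [h2]
    ring
  have hres0 : ∀ z ∈ B, res z = 0 := by
    have h1 : ∑ z ∈ B, res z ^ 2 ≤ 0 := by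
      have h2 := Finset.sum_nonneg hvi
      rw [hkey] at h2
      linarith
    have h2 : ∑ z ∈ B, res z ^ 2 = 0 :=
      le_antisymm h1 (Finset.sum_nonneg (fun z _ => sq_nonneg _))
    intro z hz
    have h3 := (Finset.sum_eq_zero_iff_of_nonneg (fun z _ => sq_nonneg (res z))).1 h2 z hz
    exact pow_eq_zero_iff (two_ne_zero) |>.1 h3
  have hΛμ : ∀ z ∈ B, ∑ T ∈ CC n B, Λ s T * cm n T z = μ s z := by
    intro z hz
    have := hres0 z hz
    simp only [hres] at this
    linarith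
  have hΛ1 : ∑ T ∈ CC n B, Λ s T = 1 := hsum1 _ hΛμ
  have htot' : tot s = 1 := by
    simp only [htot]
    rw [hΛ1, max_self]
  have hLΛ : L s = Λ s := by
    funext T
    simp only [hL]
    rw [htot', div_one]
  refine ⟨X s, Λ s, hxM, hΛ01, hΛ1, ?_, ?_⟩
  · intro i
    rw [← hN i]
    exact Finset.sum_congr rfl (fun z hz => by rw [hΛμ z hz])
  · intro z hz hne y hy
    rw [hΛμ z hz] at hne
    rw [← hLΛ]
    exact hsupp z hne y hy

end Pool.Agent.Helper21.FX
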