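import Mathlib

/-! MP_be0fb5, fixed point theorem, step 1: bounded separating vectors with a far field. -/

set_option autoImplicit false

namespace Pool.Agent.Helper21.FX

open Matrix

/-- the real vector of an integer vector -/
def ct (z : Fin 3 → ℤ) : Fin 3 → ℝ := fun i => (z i : ℝ)

theorem dot_sq_le (a b : Fin 3 → ℝ) : (a ⬝ᵥ b) ^ 2 ≤ (a ⬝ᵥ a) * (b ⬝ᵥ b) := by
  simp only [dotProduct, Fin.sum_univ_three]
  nlinarith [sq_nonneg (a 0 * b 1 - a 1 * b 0), sq_nonneg (a 0 * b 2 - a 2 * b 0),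
    sq_nonneg (a 1 * b 2 - a 2 * b 1)]

theorem dot_self_nonneg' (a : Fin 3 → ℝ) : 0 ≤ a ⬝ᵥ a := by
  simp only [dotProduct, Fin.sum_univ_three]
  nlinarith [sq_nonneg (a 0), sq_nonneg (a 1), sq_nonneg (a 2)]

/-- separation of one point, normalised at `c` -/
theorem sep_one (K : Set (Fin 3 → ℝ)) (hK : Convex ℝ K) (c : Fin 3 → ℝ) (hc : c ∈ interior K)
    (z : Fin 3 → ℝ) (hz : z ∉ interior K) :
    ∃ n : Fin 3 → ℝ, (∀ y ∈ K, n ⬝ᵥ y ≤ n ⬝ᵥ z) ∧ n ⬝ᵥ (z - c) = 1 := by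
  obtain ⟨f, hf⟩ := geometric_hahn_banach_open_point hK.interior isOpen_interior hz
  have hne : (interior K).Nonempty := ⟨c, hc⟩
  have hcl : ∀ y ∈ K, f y ≤ f z := by
    intro y hy
    have h1 : y ∈ closure (interior K) := by
      rw [hK.closure_interior_eq_closure_of_nonempty_interior hne]
      exact subset_closure hy
    have h2 : closure (interior K) ⊆ {y | f y ≤ f z} :=
      closure_minimal (fun a ha => (hf a ha).le) (isClosed_le f.continuous continuous_const)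
    exact h2 h1
  have hpos : 0 < f z - f c := sub_pos.2 (hf c hc)
  have hrep : ∀ y : Fin 3 → ℝ, (fun i => f (Pi.single i 1)) ⬝ᵥ y = f y := by
    intro y
    have h1 : y = ∑ i, y i • (Pi.single i 1 : Fin 3 → ℝ) := by
      funext j
      simp [Finset.sum_apply, Pi.single_apply]
    conv_rhs => rw [h1]
    rw [map_sum]
    simp only [map_smul, smul_eq_mul, dotProduct]
    exact Finset.sum_congr rfl (fun i _ => mul_comm _ _)
  refine ⟨(f z - f c)⁻¹ • (fun i => f (Pi.single i 1)), ?_, ?_⟩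
  · intro y hy
    rw [smul_dotProduct, smul_dotProduct, hrep, hrep]
    exact mul_le_mul_of_nonneg_left (hcl y hy) (inv_nonneg.2 hpos.le)
  · rw [smul_dotProduct, hrep, map_sub, smul_eq_mul]
    exact inv_mul_cancel₀ hpos.ne'

/-- all normals at once, with a uniform bound and a radial far field -/
theorem normals (K : Set (Fin 3 → ℝ)) (hK : Convex ℝ K) (c : Fin 3 → ℝ) (r : ℝ) (hr : 0 < r)
    (hball : ∀ y : Fin 3 → ℝ, (∀ i, |y i - c i| ≤ r) → y ∈ K)
    (RK : ℝ) (hRK : ∀ y ∈ K, (y - c) ⬝ᵥ (y - c) ≤ RK) (hRK0 : 0 < RK)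
    (hfree : ∀ z : Fin 3 → ℤ, ct z ∉ interior K) :
    ∃ n : (Fin 3 → ℤ) → (Fin 3 → ℝ), ∀ z, (∀ y ∈ K, n z ⬝ᵥ y ≤ n z ⬝ᵥ ct z) ∧
      n z ⬝ᵥ (ct z - c) = 1 ∧ n z ⬝ᵥ n z ≤ 3 / r ^ 2 ∧
      (RK ≤ (ct z - c) ⬝ᵥ (ct z - c) →
        n z = ((ct z - c) ⬝ᵥ (ct z - c))⁻¹ • (ct z - c)) := by
  classical
  have hcint : c ∈ interior K := by
    rw [mem_interior]
    refine ⟨Metric.ball c r, ?_, Metric.isOpen_ball, Metric.mem_ball_self hr⟩
    intro y hy
    apply hball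
    intro i
    have h1 : ‖(y - c) i‖ ≤ ‖y - c‖ := norm_le_pi_norm _ i
    have h2 : ‖y - c‖ < r := by
      rw [Metric.mem_ball, dist_eq_norm] at hy
      exact hy
    have h3 : ‖(y - c) i‖ = |y i - c i| := by
      rw [Pi.sub_apply, Real.norm_eq_abs]
    linarith
  have hbd : ∀ (n z : Fin 3 → ℝ), (∀ y ∈ K, n ⬝ᵥ y ≤ n ⬝ᵥ z) → n ⬝ᵥ (z - c) = 1 →
      n ⬝ᵥ n ≤ 3 / r ^ 2 := by
    intro n z hn hn1
    have key : ∀ i, n i ^ 2 ≤ 1 / r ^ 2 := by
      intro i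
      have h1 : ∀ t : ℝ, |t| ≤ r → n i * t ≤ 1 := by
        intro t ht
        have hy : (c + Pi.single i t) ∈ K := by
          apply hball
          intro j
          by_cases hj : j = i
          · subst hj
            simpa using ht
          · simp [hj, hr.le]
        have h2 := hn _ hy
        rw [dotProduct_add, dotProduct_single] at h2
        rw [dotProduct_sub] at hn1
        linarith
      have h3 := h1 r (by rw [abs_of_pos hr])
      have h4 := h1 (-r) (by rw [abs_neg, abs_of_pos hr])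
      have h5 : |n i * r| ≤ 1 := abs_le.2 ⟨by linarith, h3⟩
      rw [le_div_iff₀ (by positivity), ← mul_pow]
      calc (n i * r) ^ 2 = |n i * r| ^ 2 := (sq_abs _).symm
        _ ≤ 1 ^ 2 := pow_le_pow_left₀ (abs_nonneg _) h5 2
        _ = 1 := one_pow 2
    have h6 : n ⬝ᵥ n = n 0 ^ 2 + n 1 ^ 2 + n 2 ^ 2 := by
      simp only [dotProduct, Fin.sum_univ_three]
      ring
    rw [h6]
    have := key 0
    have := key 1
    have := key 2
    have h7 : 3 / r ^ 2 = 1 / r ^ 2 + 1 / r ^ 2 + 1 / r ^ 2 := by ring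
    rw [h7]
    linarith
  have hex : ∀ z : Fin 3 → ℤ, ∃ n : Fin 3 → ℝ, (∀ y ∈ K, n ⬝ᵥ y ≤ n ⬝ᵥ ct z) ∧
      n ⬝ᵥ (ct z - c) = 1 ∧ (RK ≤ (ct z - c) ⬝ᵥ (ct z - c) →
        n = ((ct z - c) ⬝ᵥ (ct z - c))⁻¹ • (ct z - c)) := by
    intro z
    by_cases hfar : RK ≤ (ct z - c) ⬝ᵥ (ct z - c)
    · have ha : 0 < (ct z - c) ⬝ᵥ (ct z - c) := lt_of_lt_of_le hRK0 hfar
      refine ⟨((ct z - c) ⬝ᵥ (ct z - c))⁻¹ • (ct z - c), ?_, ?_, fun _ => rfl⟩
      · intro y hy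
        rw [smul_dotProduct, smul_dotProduct]
        refine mul_le_mul_of_nonneg_left ?_ (inv_nonneg.2 ha.le)
        have h1 : (ct z - c) ⬝ᵥ y = (ct z - c) ⬝ᵥ (y - c) + (ct z - c) ⬝ᵥ c := by
          rw [← dotProduct_add, sub_add_cancel]
        have h2 : (ct z - c) ⬝ᵥ ct z = (ct z - c) ⬝ᵥ (ct z - c) + (ct z - c) ⬝ᵥ c := by
          rw [← dotProduct_add, sub_add_cancel]
        rw [h1, h2]
        have h3 := dot_sq_le (ct z - c) (y - c)
        have h4 := hRK y hy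
        have h5 : ((ct z - c) ⬝ᵥ (y - c)) ^ 2 ≤ ((ct z - c) ⬝ᵥ (ct z - c)) ^ 2 := by
          nlinarith
        have h6 := abs_le_of_sq_le_sq h5 ha.le
        linarith [le_abs_self ((ct z - c) ⬝ᵥ (y - c))]
      · rw [smul_dotProduct, smul_eq_mul]
        exact inv_mul_cancel₀ ha.ne'
    · obtain ⟨n, h1, h2⟩ := sep_one K hK c hcint (ct z) (hfree z)
      exact ⟨n, h1, h2, fun h => absurd h hfar⟩
  choose n hn using hex
  exact ⟨n, fun z => ⟨(hn z).1, (hn z).2.1, hbd _ _ (hn z).1 (hn z).2.1, (hn z).2.2⟩⟩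

end Pool.Agent.Helper21.FX
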