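import Pool.Agent.Helper73.FX.Ell

/-!
# MP_be0fb5, full answer: the superbases tied with a minimal one (finite part)

The functional `Ph e p = ∑_s (6 + e_s) p_s` over the six pairs.  `LL` is the list of the 38 excess vectors of the
averages of `P` over the tied superbases, one for every possible set of vanishing conorms; `NF` are the six normal
forms.  `fin_check`: in the coordinates of any tied superbase the average has again an excess vector of the list.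
-/

set_option autoImplicit false

namespace Pool.Agent.Helper21.FX

open Matrix Pool.Agent.Helper12.LW
open Pool.Agent.Helper84.FL (Superbase)

/-- first index of a pair -/
def qa : Fin 6 → Fin 4 := ![0, 0, 0, 1, 1, 2]

/-- second index of a pair -/
def qb : Fin 6 → Fin 4 := ![1, 2, 3, 2, 3, 3]

/-- normal forms of the excess vectors, pairs in the order 01, 02, 03, 12, 13, 23 -/
def NF : Fin 6 → Fin 6 → ℤ :=
  ![![0, 0, 0, 0, 0, 0], ![3, 0, 0, 0, 0, 0], ![2, 0, 0, 0, 0, 2], ![6, 6, 0, 0, 0, 0],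
    ![6, 6, 0, 6, 0, 0], ![6, 0, 0, 12, 0, 6]]

/-- all excess vectors -/
def LL : List (List ℤ) :=
  [[0, 0, 0, 0, 0, 0],
   [3, 0, 0, 0, 0, 0], [0, 3, 0, 0, 0, 0], [0, 0, 3, 0, 0, 0], [0, 0, 0, 3, 0, 0], [0, 0, 0, 0, 3, 0],
   [0, 0, 0, 0, 0, 3],
   [2, 0, 0, 0, 0, 2], [0, 2, 0, 0, 2, 0], [0, 0, 2, 2, 0, 0],
   [6, 6, 0, 0, 0, 0], [6, 0, 6, 0, 0, 0], [0, 6, 6, 0, 0, 0],
   [6, 0, 0, 6, 0, 0], [6, 0, 0, 0, 6, 0], [0, 0, 0, 6, 6, 0],
   [0, 6, 0, 6, 0, 0], [0, 6, 0, 0, 0, 6], [0, 0, 0, 6, 0, 6],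
   [0, 0, 6, 0, 6, 0], [0, 0, 6, 0, 0, 6], [0, 0, 0, 0, 6, 6],
   [6, 6, 0, 6, 0, 0], [6, 0, 6, 0, 6, 0], [0, 6, 6, 0, 0, 6], [0, 0, 0, 6, 6, 6],
   [6, 0, 0, 12, 0, 6], [6, 0, 0, 0, 12, 6], [0, 6, 0, 12, 6, 0], [0, 6, 0, 0, 6, 12],
   [0, 0, 6, 6, 12, 0], [0, 0, 6, 6, 0, 12], [12, 6, 0, 0, 6, 0], [6, 12, 0, 0, 0, 6],
   [12, 0, 6, 6, 0, 0], [6, 0, 12, 0, 0, 6], [0, 12, 6, 6, 0, 0], [0, 6, 12, 0, 6, 0]]

/-- root -/
def rv (a b i : Fin 4) : ℤ := if i = a then 1 else if i = b then -1 else 0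

/-- the columns: three roots along a spanning tree -/
def hc (t : Bool) (a0 b0 a1 b1 a2 b2 : Fin 4) (l i : Fin 4) : ℤ :=
  if l = 0 then rv a0 b0 i else if l = 1 then rv a1 b1 i else
    if l = 2 then (if t then rv a0 b0 i + rv a2 b2 i else rv a2 b2 i) else 0

/-- determinant of three columns -/
def dt (h : Fin 4 → Fin 4 → ℤ) : ℤ :=
  h 0 0 * (h 1 1 * h 2 2 - h 1 2 * h 2 1) - h 1 0 * (h 0 1 * h 2 2 - h 0 2 * h 2 1)
    + h 2 0 * (h 0 1 * h 1 2 - h 0 2 * h 1 1)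

/-- difference of two columns -/
def dd (h : Fin 4 → Fin 4 → ℤ) (s : Fin 6) (i : Fin 4) : ℤ := h (qa s) i - h (qb s) i

/-- squared length -/
def sq4 (d : Fin 4 → ℤ) : ℤ := d 0 * d 0 + d 1 * d 1 + d 2 * d 2 + d 3 * d 3

/-- the coefficient of the pair in the new coordinates -/
def cf (d : Fin 4 → ℤ) (e : List ℤ) : ℤ :=
  match e with
  | [e0, e1, e2, e3, e4, e5] => -((6 + e0) * (d 0 * d 1) + (6 + e1) * (d 0 * d 2) + (6 + e2) * (d 0 * d 3)
      + (6 + e3) * (d 1 * d 2) + (6 + e4) * (d 1 * d 3) + (6 + e5) * (d 2 * d 3))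
  | _ => 0

/-- the tree used for a normal form -/
def tr : Fin 6 → Bool := ![false, false, true, false, false, true]

/-- the test -/
def tst (k : Fin 6) (h : Fin 4 → Fin 4 → ℤ) : Bool :=
  dt h = 0 || !((List.finRange 6).all fun s => NF k s != 0 || sq4 (dd h s) == 2) ||
    LL.any fun e => (List.finRange 6).all fun s => 6 + NF k s == cf (dd h s) e

theorem fin_check : ∀ k : Fin 6, ∀ a0 b0 a1 b1 a2 b2 : Fin 4, a0 ≠ b0 → a1 ≠ b1 → a2 ≠ b2 →
    tst k (hc (tr k) a0 b0 a1 b1 a2 b2) = true := by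
  decide +kernel

end Pool.Agent.Helper21.FX
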