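import Pool.Agent.Helper21.FX.TieFin

/-!
# MP_be0fb5, full answer: the superbases tied with a minimal one

`tied`: if the superbase `g = X f` has `n_lm = 1` on all pairs outside the support of a normal form `NF k`, then the
functional `∑ (6 + NF k s) sp G f s` is `∑ (6 + e s) sp G g s` for an excess vector `e` of the list `LL`.
-/

set_option autoImplicit false

namespace Pool.Agent.Helper21.FX

open Matrix Pool.Agent.Helper12.LW
open Pool.Agent.Helper84.FL (Superbase)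
open Pool.Agent.Helper73.FX (sp nn PP)

theorem root_of (d : Fin 4 → ℤ) (h0 : ∑ i, d i = 0) (h2 : ∑ i, d i ^ 2 = 2) :
    ∃ a b : Fin 4, a ≠ b ∧ ∀ i, d i = rv a b i := by
  have hb : ∀ i, d i = -1 ∨ d i = 0 ∨ d i = 1 := by
    intro i
    have h1 : d i ^ 2 ≤ 2 := by
      rw [← h2]
      exact Finset.single_le_sum (f := fun i => d i ^ 2) (fun _ _ => sq_nonneg _) (Finset.mem_univ i)
    have h3 : d i ≤ 1 := by nlinarith
    have h4 : -1 ≤ d i := by nlinarith
    omega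
  have key : ∀ c : Fin 4 → Fin 3, (∑ i, (((c i : ℕ) : ℤ) - 1)) = 0 → (∑ i, (((c i : ℕ) : ℤ) - 1) ^ 2) = 2 →
      ∃ a b : Fin 4, a ≠ b ∧ ∀ i, (((c i : ℕ) : ℤ) - 1) = rv a b i := by
    decide +kernel
  have hc : ∀ i, ∃ c : Fin 3, d i = ((c : ℕ) : ℤ) - 1 := by
    intro i
    rcases hb i with h | h | h
    · exact ⟨0, by rw [h]; rfl⟩
    · exact ⟨1, by rw [h]; rfl⟩
    · exact ⟨2, by rw [h]; rfl⟩
  choose c hc using hc
  simp only [hc] at h0 h2 ⊢
  exact key c h0 h2

/-- the difference columns of the coordinates have nonzero determinant -/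
theorem dt_ne {f g : Fin 4 → Fin 3 → ℤ} (hf : Superbase f) (hg : Superbase g)
    (X : Fin 4 → Fin 4 → ℤ) (hX : ∀ i, g i = ∑ l, X i l • f l) :
    dt (fun l i => X i l - X i 3) ≠ 0 := by
  have hY := fun l => hg.span (f l)
  choose Y hY using hY
  have h1 : ∀ l m, ∑ i, Y l i * (X i m - X i 3) = (if m = l then 1 else 0) - (if (3 : Fin 4) = l then 1 else 0) := by
    intro l m
    have h2 : ∑ k, (∑ i, Y l i * X i k - if k = l then 1 else 0) • f k = 0 := by
      simp only [sub_smul, Finset.sum_sub_distrib, ite_smul, one_smul, zero_smul, Finset.sum_ite_eq',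
        Finset.mem_univ, if_true]
      rw [sub_eq_zero]
      conv_rhs => rw [hY l]
      simp only [hX, Finset.sum_smul, Finset.smul_sum, mul_smul]
      rw [Finset.sum_comm]
    have h3 := Pool.Agent.Helper73.FX.rel hf _ h2 m 3
    simp only [mul_sub, Finset.sum_sub_distrib]
    linarith
  have h4 : ∀ m, ∑ i, (X i m - X i 3) = 0 := fun m =>
    Pool.Agent.Helper73.FX.sum_diff hf hg.sum X hX m 3
  set A : Matrix (Fin 3) (Fin 3) ℤ := Matrix.of fun l i => Y l.castSucc i.castSucc - Y l.castSucc 3 with hA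
  set B : Matrix (Fin 3) (Fin 3) ℤ := Matrix.of fun i m => X i.castSucc m.castSucc - X i.castSucc 3 with hB
  have hAB : A * B = 1 := by
    ext l m
    rw [Matrix.mul_apply, Matrix.one_apply]
    have h5 := h1 l.castSucc m.castSucc
    have h6 := h4 m.castSucc
    rw [Fin.sum_univ_castSucc] at h5 h6
    have h7 : (3 : Fin 4) ≠ l.castSucc := by
      intro h
      have := congrArg Fin.val h
      simp at this
      omega
    rw [if_neg h7, sub_zero] at h5
    simp only [Fin.castSucc_inj] at h5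
    have h8 : (if l = m then (1 : ℤ) else 0) = if m = l then 1 else 0 := by
      simp only [eq_comm]
    rw [h8, ← h5]
    have h9 : X (Fin.last 3) m.castSucc - X (Fin.last 3) 3 = -∑ i : Fin 3, (X i.castSucc m.castSucc - X i.castSucc 3) := by
      linarith
    rw [h9, mul_neg, Finset.mul_sum, ← sub_eq_add_neg, ← Finset.sum_sub_distrib]
    refine Finset.sum_congr rfl fun i _ => ?_
    simp only [hA, hB, Matrix.of_apply]
    have : (Fin.last 3 : Fin 4) = 3 := rfl
    rw [this]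
    ring
  have hdet : A.det * B.det = 1 := by rw [← Matrix.det_mul, hAB, Matrix.det_one]
  have hB0 : B.det ≠ 0 := by
    intro h
    rw [h, mul_zero] at hdet
    exact zero_ne_one hdet
  intro h
  apply hB0
  rw [Matrix.det_fin_three]
  simp only [dt] at h
  simp only [hB, Matrix.of_apply]
  have e0 : (Fin.castSucc 0 : Fin 4) = 0 := rfl
  have e1 : (Fin.castSucc 1 : Fin 4) = 1 := rfl
  have e2 : (Fin.castSucc 2 : Fin 4) = 2 := rfl
  rw [e0, e1, e2]
  linear_combination h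

/-- the functional with excess vector `e` -/
def Ph (e : List ℤ) (p : Fin 4 → Fin 4 → ℝ) : ℝ :=
  match e with
  | [e0, e1, e2, e3, e4, e5] => (6 + e0) * p 0 1 + (6 + e1) * p 0 2 + (6 + e2) * p 0 3
      + (6 + e3) * p 1 2 + (6 + e4) * p 1 3 + (6 + e5) * p 2 3
  | _ => 0

/-- the excess vector of a normal form as a list -/
def nl (k : Fin 6) : List ℤ := [NF k 0, NF k 1, NF k 2, NF k 3, NF k 4, NF k 5]

theorem sp_coord {G : Matrix (Fin 3) (Fin 3) ℝ} (hG : G.IsSymm) {f g : Fin 4 → Fin 3 → ℤ}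
    (hf : ∑ l, f l = 0) (X : Fin 4 → Fin 4 → ℤ) (hX : ∀ i, g i = ∑ l, X i l • f l) (i j : Fin 4) :
    sp G g i j = -(∑ s, sp G f (qa s) (qb s) *
      (((X i (qa s) : ℝ) - X i (qb s)) * ((X j (qa s) : ℝ) - X j (qb s)))) := by
  rw [sp, hX i, hX j, Pool.Agent.Helper73.FX.toR_sum, Pool.Agent.Helper73.FX.toR_sum,
    Pool.Agent.Helper73.FX.selling hG hf]
  have h := fun l m => Pool.Agent.Helper73.FX.sp_comm hG f l m
  simp only [Fin.sum_univ_four, Fin.sum_univ_six, qa, qb, Matrix.cons_val_zero, Matrix.cons_val_one,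
    Matrix.cons_val, sub_self, mul_zero]
  rw [h 1 0, h 2 0, h 3 0, h 2 1, h 3 1, h 3 2]
  ring

theorem tied_aux {G : Matrix (Fin 3) (Fin 3) ℝ} (hG : G.IsSymm) {f g : Fin 4 → Fin 3 → ℤ}
    (hf : ∑ l, f l = 0) (X : Fin 4 → Fin 4 → ℤ) (hX : ∀ i, g i = ∑ l, X i l • f l) (k : Fin 6)
    (e : List ℤ) (he : e.length = 6)
    (h : ∀ s, 6 + NF k s = cf (fun i => X i (qa s) - X i (qb s)) e) :
    Ph (nl k) (sp G f) = Ph e (sp G g) := by
  obtain ⟨e0, e1, e2, e3, e4, e5, rfl⟩ : ∃ e0 e1 e2 e3 e4 e5, e = [e0, e1, e2, e3, e4, e5] := by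
    match e, he with
    | [e0, e1, e2, e3, e4, e5], _ => exact ⟨e0, e1, e2, e3, e4, e5, rfl⟩
  have hR : ∀ s, (6 + NF k s : ℝ) = -((6 + e0 : ℝ) * (((X 0 (qa s) : ℝ) - X 0 (qb s)) * ((X 1 (qa s) : ℝ) - X 1 (qb s)))
      + (6 + e1) * (((X 0 (qa s) : ℝ) - X 0 (qb s)) * ((X 2 (qa s) : ℝ) - X 2 (qb s)))
      + (6 + e2) * (((X 0 (qa s) : ℝ) - X 0 (qb s)) * ((X 3 (qa s) : ℝ) - X 3 (qb s)))
      + (6 + e3) * (((X 1 (qa s) : ℝ) - X 1 (qb s)) * ((X 2 (qa s) : ℝ) - X 2 (qb s)))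
      + (6 + e4) * (((X 1 (qa s) : ℝ) - X 1 (qb s)) * ((X 3 (qa s) : ℝ) - X 3 (qb s)))
      + (6 + e5) * (((X 2 (qa s) : ℝ) - X 2 (qb s)) * ((X 3 (qa s) : ℝ) - X 3 (qb s)))) := by
    intro s
    have h1 := congrArg (Int.cast : ℤ → ℝ) (h s)
    simp only [cf] at h1
    push_cast at h1
    exact h1
  have key : Ph (nl k) (sp G f) = ∑ s, (6 + NF k s : ℝ) * sp G f (qa s) (qb s) := by
    simp only [Fin.sum_univ_six, qa, qb, Matrix.cons_val_zero, Matrix.cons_val_one, Matrix.cons_val]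
    rfl
  rw [key]
  simp only [hR]
  simp only [Ph]
  rw [sp_coord hG hf X hX 0 1, sp_coord hG hf X hX 0 2, sp_coord hG hf X hX 0 3, sp_coord hG hf X hX 1 2,
    sp_coord hG hf X hX 1 3, sp_coord hG hf X hX 2 3]
  simp only [mul_neg, Finset.mul_sum, ← Finset.sum_neg_distrib, ← Finset.sum_add_distrib]
  refine Finset.sum_congr rfl fun s _ => ?_
  ring

theorem tst_dest {k : Fin 6} {h : Fin 4 → Fin 4 → ℤ} (ht : tst k h = true) (hd : dt h ≠ 0)
    (hn : ∀ s, NF k s = 0 → sq4 (dd h s) = 2) :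
    ∃ e ∈ LL, ∀ s, 6 + NF k s = cf (dd h s) e := by
  unfold tst at ht
  rw [Bool.or_eq_true, Bool.or_eq_true] at ht
  rcases ht with (h1 | h1) | h1
  · exact absurd (of_decide_eq_true h1) hd
  · exfalso
    rw [Bool.not_eq_true', List.all_eq_false] at h1
    obtain ⟨s, -, hs⟩ := h1
    apply hs
    rw [Bool.or_eq_true]
    by_cases h0 : NF k s = 0
    · right
      rw [beq_iff_eq]
      exact hn s h0
    · left
      rw [bne_iff_ne]
      exact h0
  · rw [List.any_eq_true] at h1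
    obtain ⟨e, he, h2⟩ := h1
    refine ⟨e, he, fun s => ?_⟩
    rw [List.all_eq_true] at h2
    exact beq_iff_eq.1 (h2 s (List.mem_finRange s))

theorem LL_length : ∀ e ∈ LL, e.length = 6 := by decide

theorem NF_tree : ∀ k : Fin 6,
    NF k 2 = 0 ∧ NF k 4 = 0 ∧ (tr k = false → NF k 5 = 0) ∧ (tr k = true → NF k 1 = 0) := by
  decide

/-- **tied superbases**: the average has an excess vector of the list in all tied coordinates. -/
theorem tied {f g : Fin 4 → Fin 3 → ℤ} (hf : Superbase f) (hg : Superbase g)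
    (X : Fin 4 → Fin 4 → ℤ) (hX : ∀ i, g i = ∑ l, X i l • f l) (k : Fin 6)
    (hn : ∀ s, NF k s = 0 → nn X (qa s) (qb s) = 2) :
    ∃ e ∈ LL, ∀ G : Matrix (Fin 3) (Fin 3) ℝ, G.IsSymm → Ph (nl k) (sp G f) = Ph e (sp G g) := by
  obtain ⟨hk2, hk4, hk5, hk1⟩ := NF_tree k
  have hsum := Pool.Agent.Helper73.FX.sum_diff hf hg.sum X hX
  obtain ⟨a0, b0, hab0, h0⟩ := root_of (fun i => X i 0 - X i 3) (hsum 0 3) (hn 2 hk2)
  obtain ⟨a1, b1, hab1, h1⟩ := root_of (fun i => X i 1 - X i 3) (hsum 1 3) (hn 4 hk4)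
  have h2 : ∃ a2 b2 : Fin 4, a2 ≠ b2 ∧ ∀ i, X i 2 - X i 3 =
      if tr k = true then rv a0 b0 i + rv a2 b2 i else rv a2 b2 i := by
    by_cases ht : tr k = true
    · obtain ⟨a2, b2, hab2, h2⟩ := root_of (fun i => X i 2 - X i 0) (hsum 2 0) (by
        have h3 := hn 1 (hk1 ht)
        simp only [nn, qa, qb, Matrix.cons_val_one, Matrix.cons_val_zero] at h3
        rw [← h3]
        refine Finset.sum_congr rfl fun i _ => ?_
        ring)
      refine ⟨a2, b2, hab2, fun i => ?_⟩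
      rw [if_pos ht, ← h0 i, ← h2 i]
      ring
    · obtain ⟨a2, b2, hab2, h2⟩ := root_of (fun i => X i 2 - X i 3) (hsum 2 3)
        (hn 5 (hk5 (Bool.eq_false_iff.2 ht)))
      refine ⟨a2, b2, hab2, fun i => ?_⟩
      rw [if_neg ht, ← h2 i]
  obtain ⟨a2, b2, hab2, h2⟩ := h2
  have hh : (fun l i => X i l - X i 3) = hc (tr k) a0 b0 a1 b1 a2 b2 := by
    funext l i
    fin_cases l
    · exact h0 i
    · exact h1 i
    · exact h2 i
    · simp [hc]
  have ht := fin_check k a0 b0 a1 b1 a2 b2 hab0 hab1 hab2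
  rw [← hh] at ht
  have hdd : ∀ s i, dd (fun l i => X i l - X i 3) s i = X i (qa s) - X i (qb s) := by
    intro s i
    unfold dd
    ring
  obtain ⟨e, he, h3⟩ := tst_dest ht (dt_ne hf hg X hX) (by
    intro s hs
    have h4 := hn s hs
    unfold nn at h4
    rw [Fin.sum_univ_four] at h4
    rw [← h4]
    simp only [sq4, hdd]
    ring)
  refine ⟨e, he, fun G hG => ?_⟩
  refine tied_aux hG hf.sum X hX k e (LL_length e he) fun s => ?_
  rw [h3 s]
  congr 1
  funext i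
  exact hdd s i

end Pool.Agent.Helper21.FX
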